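import Mathlib
import Pool.Agent.Helper36.CV.StmtsP

set_option autoImplicit false
set_option linter.unusedVariables false

namespace Pool.Agent.Helper39.CV

open Complex Filter Topology MeasureTheory Set
open Pool.Agent.Helper36.CV

noncomputable section

/-- principal square root -/
def sq (z : ℂ) : ℂ := z ^ (1 / 2 : ℂ)

theorem norm_sq (z : ℂ) : ‖sq z‖ = ‖z‖ ^ (1 / 2 : ℝ) := by
  have := Complex.norm_cpow_real z (1 / 2 : ℝ)
  rw [sq, ← this]
  norm_num

theorem sq_ne_zero {z : ℂ} (hz : z ≠ 0) : sq z ≠ 0 := by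
  intro h
  have h1 := norm_sq z
  rw [h, norm_zero] at h1
  have h2 : 0 < ‖z‖ ^ (1 / 2 : ℝ) := Real.rpow_pos_of_pos (norm_pos_iff.mpr hz) _
  linarith

theorem sq_mul_self (z : ℂ) : sq z * sq z = z := by
  by_cases hz : z = 0
  · subst hz
    simp [sq]
  · rw [sq, ← Complex.cpow_add _ _ hz]
    norm_num

theorem sq_real_pos {t : ℝ} (ht : 0 ≤ t) : sq (t : ℂ) = (Real.sqrt t : ℂ) := by
  rw [sq, Real.sqrt_eq_rpow, Complex.ofReal_cpow ht]
  norm_num

theorem sq_real_neg {t : ℝ} (ht : t ≤ 0) : sq (t : ℂ) = I * (Real.sqrt (-t) : ℂ) := by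
  have h := Complex.ofReal_cpow_of_nonpos ht (1 / 2 : ℂ)
  rw [sq, h]
  have h1 : (-(t : ℂ)) ^ (1 / 2 : ℂ) = (Real.sqrt (-t) : ℂ) := by
    have h2 := sq_real_pos (t := -t) (by linarith)
    rw [sq] at h2
    rw [← h2]
    push_cast
    ring_nf
  rw [h1]
  have h3 : exp ((Real.pi : ℂ) * I * (1 / 2 : ℂ)) = I := by
    have := Complex.exp_pi_mul_I
    have h4 : (Real.pi : ℂ) * I * (1 / 2 : ℂ) = (Real.pi / 2 : ℂ) * I := by ring
    rw [h4, Complex.exp_mul_I]
    simp
  rw [h3]
  ring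

theorem sq_continuousOn : ContinuousOn sq {z : ℂ | 0 ≤ z.im ∧ z ≠ 0} := by
  intro z hz
  by_cases hs : z ∈ slitPlane
  · have h1 : ContinuousAt sq z := by
      unfold sq
      exact continuousAt_id.cpow continuousAt_const hs
    exact h1.continuousWithinAt
  · rw [Complex.mem_slitPlane_iff] at hs
    push Not at hs
    have hre : z.re < 0 := by
      rcases hs.1.lt_or_eq with h | h
      · exact h
      · exact absurd (Complex.ext (by simpa using h) (by simpa using hs.2)) hz.2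
    have h1 : ContinuousWithinAt Complex.log {z : ℂ | 0 ≤ z.im} z :=
      Complex.continuousWithinAt_log_of_re_neg_of_im_zero hre hs.2
    have h2 : ContinuousWithinAt Complex.log {z : ℂ | 0 ≤ z.im ∧ z ≠ 0} z :=
      h1.mono (fun w hw => hw.1)
    have h3 : ContinuousWithinAt (fun w : ℂ => Complex.exp (Complex.log w * (1 / 2)))
        {z : ℂ | 0 ≤ z.im ∧ z ≠ 0} z := (h2.mul continuousWithinAt_const).cexp
    refine h3.congr (fun w hw => ?_) ?_
    · rw [sq, Complex.cpow_def_of_ne_zero hw.2]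
    · rw [sq, Complex.cpow_def_of_ne_zero hz.2]

theorem sq_differentiableAt {z : ℂ} (hz : 0 < z.im) : DifferentiableAt ℂ sq z := by
  unfold sq
  refine (differentiableAt_id).cpow (differentiableAt_const _) ?_
  rw [Complex.mem_slitPlane_iff]
  right
  exact hz.ne'

theorem qc_eq (a b : ℝ) (z : ℂ) : qc a b z = sq (z - a) * sq (z - b) := rfl

theorem qc_mul_self (a b : ℝ) (z : ℂ) : qc a b z * qc a b z = (z - a) * (z - b) := by
  rw [qc_eq]
  calc sq (z - a) * sq (z - b) * (sq (z - a) * sq (z - b)) =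
      (sq (z - a) * sq (z - a)) * (sq (z - b) * sq (z - b)) := by ring
    _ = _ := by rw [sq_mul_self, sq_mul_self]

theorem qc_ne_zero {a b : ℝ} {z : ℂ} (ha : z ≠ a) (hb : z ≠ b) : qc a b z ≠ 0 :=
  mul_ne_zero (sq_ne_zero (sub_ne_zero.mpr ha)) (sq_ne_zero (sub_ne_zero.mpr hb))

theorem norm_qc (a b : ℝ) (z : ℂ) : ‖qc a b z‖ = ‖z - a‖ ^ (1 / 2 : ℝ) * ‖z - b‖ ^ (1 / 2 : ℝ) := by
  rw [qc_eq, norm_mul, norm_sq, norm_sq]

theorem qc_continuousOn (a b : ℝ) : ContinuousOn (qc a b) {z : ℂ | 0 ≤ z.im ∧ z ≠ a ∧ z ≠ b} := by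
  have h1 : ContinuousOn (fun z : ℂ => sq (z - a)) {z : ℂ | 0 ≤ z.im ∧ z ≠ a ∧ z ≠ b} := by
    refine sq_continuousOn.comp (continuous_id.sub continuous_const).continuousOn ?_
    intro z hz
    exact ⟨by simpa using hz.1, sub_ne_zero.mpr hz.2.1⟩
  have h2 : ContinuousOn (fun z : ℂ => sq (z - b)) {z : ℂ | 0 ≤ z.im ∧ z ≠ a ∧ z ≠ b} := by
    refine sq_continuousOn.comp (continuous_id.sub continuous_const).continuousOn ?_
    intro z hz
    exact ⟨by simpa using hz.1, sub_ne_zero.mpr hz.2.2⟩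
  exact h1.mul h2

theorem qc_differentiableAt (a b : ℝ) {z : ℂ} (hz : 0 < z.im) : DifferentiableAt ℂ (qc a b) z := by
  have h1 : DifferentiableAt ℂ (fun z : ℂ => sq (z - a)) z := by
    have h := sq_differentiableAt (z := z - a) (by simpa using hz)
    exact h.comp z ((differentiableAt_id).sub_const _)
  have h2 : DifferentiableAt ℂ (fun z : ℂ => sq (z - b)) z := by
    have h := sq_differentiableAt (z := z - b) (by simpa using hz)
    exact h.comp z ((differentiableAt_id).sub_const _)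
  exact h1.mul h2

/-- boundary values -/
theorem qc_right {a b t : ℝ} (hab : a < b) (ht : b ≤ t) : qc a b t = (qr a b t : ℂ) := by
  have h1 : ((t : ℂ) - a) = ((t - a : ℝ) : ℂ) := by push_cast; ring
  have h2 : ((t : ℂ) - b) = ((t - b : ℝ) : ℂ) := by push_cast; ring
  rw [qc_eq, h1, h2, sq_real_pos (by linarith), sq_real_pos (by linarith), qr, if_pos ht,
    Real.sqrt_mul (by linarith)]
  push_cast
  ring

theorem qc_left {a b t : ℝ} (hab : a < b) (ht : t ≤ a) : qc a b t = (qr a b t : ℂ) := by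
  have h1 : ((t : ℂ) - a) = ((t - a : ℝ) : ℂ) := by push_cast; ring
  have h2 : ((t : ℂ) - b) = ((t - b : ℝ) : ℂ) := by push_cast; ring
  rw [qc_eq, h1, h2, sq_real_neg (by linarith), sq_real_neg (by linarith), qr, if_neg (by linarith)]
  have h3 : Real.sqrt ((t - a) * (t - b)) = Real.sqrt (-(t - a)) * Real.sqrt (-(t - b)) := by
    rw [← Real.sqrt_mul (by linarith)]
    congr 1
    ring
  rw [h3]
  push_cast
  have : I * I = -1 := Complex.I_mul_I
  linear_combination ((Real.sqrt (-(t - a)) : ℂ) * (Real.sqrt (-(t - b)) : ℂ)) * this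

theorem qc_out {a b t : ℝ} (hab : a < b) (ht : t ∉ Ioo a b) : qc a b t = (qr a b t : ℂ) := by
  rcases le_or_gt t a with h | h
  · exact qc_left hab h
  · rcases le_or_gt b t with h' | h'
    · exact qc_right hab h'
    · exact absurd ⟨h, h'⟩ ht

theorem qc_in {a b t : ℝ} (ht : t ∈ Ioo a b) : qc a b t = I * (Real.sqrt ((t - a) * (b - t)) : ℂ) := by
  have h1 : ((t : ℂ) - a) = ((t - a : ℝ) : ℂ) := by push_cast; ring
  have h2 : ((t : ℂ) - b) = ((t - b : ℝ) : ℂ) := by push_cast; ring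
  rw [qc_eq, h1, h2, sq_real_pos (by linarith [ht.1]), sq_real_neg (by linarith [ht.2])]
  rw [Real.sqrt_mul (by linarith [ht.1])]
  have h3 : -(t - b) = b - t := by ring
  rw [h3]
  push_cast
  ring

theorem qr_in {a b t : ℝ} (ht : t ∈ Ioo a b) : qr a b t = 0 := by
  have h1 : (t - a) * (t - b) ≤ 0 := by nlinarith [ht.1, ht.2]
  rw [qr, if_neg (by linarith [ht.2]), Real.sqrt_eq_zero_of_nonpos h1]
  simp

theorem qr_ne_zero {a b t : ℝ} (ht : t ∉ Icc a b) (hab : a < b) : qr a b t ≠ 0 := by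
  have h1 : 0 < (t - a) * (t - b) := by
    rcases lt_or_ge t a with h | h
    · nlinarith
    · have : b < t := by
        by_contra hc
        exact ht ⟨h, not_lt.mp hc⟩
      exact mul_pos (by linarith) (by linarith)
  have h2 := Real.sqrt_pos.mpr h1
  rw [qr]
  split_ifs
  · exact h2.ne'
  · linarith

end

end Pool.Agent.Helper39.CV
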