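import Mathlib
import Pool.Agent.Helper36.CV.StmtsP
import Pool.Agent.Helper39.CV.QC

set_option autoImplicit false
set_option linter.unusedVariables false

namespace Pool.Agent.Helper39.CV

open Complex Filter Topology MeasureTheory Set
open Pool.Agent.Helper36.CV

noncomputable section

variable {Hm Hp : ℝ} {C : Set ℝ}

def FG (cd : CD Hm Hp C) (N : ℝ) (V W : Gap cd) (z : ℂ) : ℂ :=
  (cd.f z - N) / (qc V.a V.b z * qc W.a W.b z)

def SS {cd : CD Hm Hp C} (V W : Gap cd) : Finset ℝ := {V.a, V.b, W.a, W.b}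

def uu (s : ℝ) (z : ℂ) : ℝ := ‖z - ((s : ℝ) : ℂ)‖ ^ (-(1 / 2) : ℝ)

theorem uu_nonneg (s : ℝ) (z : ℂ) : 0 ≤ uu s z := Real.rpow_nonneg (norm_nonneg _) _

theorem pair_aux (s s' : ℝ) (hs : s ≠ s') : ∃ K : ℝ, 1 ≤ K ∧ ∀ z : ℂ, z ≠ s → z ≠ s' →
    uu s z * uu s' z ≤ K * (1 + ‖z‖) ^ (-(1 / 2) : ℝ) * (uu s z + uu s' z) := by
  set δ := |s - s'| with hδ
  have hδ0 : 0 < δ := abs_pos.mpr (sub_ne_zero.mpr hs)
  set K0 : ℝ := 2 * (1 + |s| + |s'|) / δ + 1 with hK0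
  have hK01 : 1 ≤ K0 := by
    have : 0 ≤ 2 * (1 + |s| + |s'|) / δ := by positivity
    linarith
  have key : ∀ (z : ℂ) (M : ℝ), 0 < M → δ ≤ 2 * M → ‖z‖ ≤ |s| + |s'| + M →
      M ^ (-(1 / 2) : ℝ) ≤ K0 ^ (1 / 2 : ℝ) * (1 + ‖z‖) ^ (-(1 / 2) : ℝ) := by
    intro z M hM h1 h2
    have h3 : 1 + ‖z‖ ≤ K0 * M := by
      have h4 : 1 + |s| + |s'| ≤ 2 * (1 + |s| + |s'|) / δ * M := by
        rw [div_mul_eq_mul_div, le_div_iff₀ hδ0]
        have : 0 ≤ 1 + |s| + |s'| := by positivity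
        nlinarith
      rw [hK0]
      nlinarith
    have h5 : (K0 * M) ^ (-(1 / 2) : ℝ) ≤ (1 + ‖z‖) ^ (-(1 / 2) : ℝ) :=
      Real.rpow_le_rpow_of_nonpos (by positivity) h3 (by norm_num)
    rw [Real.mul_rpow (by positivity) hM.le] at h5
    have h6 : K0 ^ (1 / 2 : ℝ) * K0 ^ (-(1 / 2) : ℝ) = 1 := by
      rw [← Real.rpow_add (by positivity)]
      norm_num
    have h7 : 0 < K0 ^ (1 / 2 : ℝ) := by positivity
    calc M ^ (-(1 / 2) : ℝ) = K0 ^ (1 / 2 : ℝ) * (K0 ^ (-(1 / 2) : ℝ) * M ^ (-(1 / 2) : ℝ)) := by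
          rw [← mul_assoc, h6, one_mul]
      _ ≤ _ := mul_le_mul_of_nonneg_left h5 h7.le
  refine ⟨K0 ^ (1 / 2 : ℝ), Real.one_le_rpow hK01 (by norm_num), fun z hz hz' => ?_⟩
  have hn : 0 < ‖z - ((s : ℝ) : ℂ)‖ := norm_pos_iff.mpr (sub_ne_zero.mpr hz)
  have hn' : 0 < ‖z - ((s' : ℝ) : ℂ)‖ := norm_pos_iff.mpr (sub_ne_zero.mpr hz')
  have htri : δ ≤ ‖z - ((s : ℝ) : ℂ)‖ + ‖z - ((s' : ℝ) : ℂ)‖ := by
    have h1 : ‖((s : ℝ) : ℂ) - ((s' : ℝ) : ℂ)‖ = δ := by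
      rw [← Complex.ofReal_sub, Complex.norm_real, Real.norm_eq_abs]
    rw [← h1]
    calc ‖((s : ℝ) : ℂ) - ((s' : ℝ) : ℂ)‖ = ‖(z - ((s' : ℝ) : ℂ)) - (z - ((s : ℝ) : ℂ))‖ := by
          congr 1
          ring
      _ ≤ ‖z - ((s' : ℝ) : ℂ)‖ + ‖z - ((s : ℝ) : ℂ)‖ := norm_sub_le _ _
      _ = _ := by ring
  have hz1 : ‖z‖ ≤ |s| + ‖z - ((s : ℝ) : ℂ)‖ := by
    calc ‖z‖ = ‖((s : ℝ) : ℂ) + (z - ((s : ℝ) : ℂ))‖ := by
          congr 1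
          ring
      _ ≤ ‖((s : ℝ) : ℂ)‖ + ‖z - ((s : ℝ) : ℂ)‖ := norm_add_le _ _
      _ = _ := by rw [Complex.norm_real, Real.norm_eq_abs]
  have hz2 : ‖z‖ ≤ |s'| + ‖z - ((s' : ℝ) : ℂ)‖ := by
    calc ‖z‖ = ‖((s' : ℝ) : ℂ) + (z - ((s' : ℝ) : ℂ))‖ := by
          congr 1
          ring
      _ ≤ ‖((s' : ℝ) : ℂ)‖ + ‖z - ((s' : ℝ) : ℂ)‖ := norm_add_le _ _
      _ = _ := by rw [Complex.norm_real, Real.norm_eq_abs]
  have hu := uu_nonneg s z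
  have hu' := uu_nonneg s' z
  have hKw : 0 ≤ K0 ^ (1 / 2 : ℝ) * (1 + ‖z‖) ^ (-(1 / 2) : ℝ) := by positivity
  rcases le_total ‖z - ((s : ℝ) : ℂ)‖ ‖z - ((s' : ℝ) : ℂ)‖ with h | h
  · have h1 := key z _ hn' (by linarith) (by linarith [abs_nonneg s])
    have h2 : uu s' z ≤ K0 ^ (1 / 2 : ℝ) * (1 + ‖z‖) ^ (-(1 / 2) : ℝ) := h1
    nlinarith [mul_le_mul_of_nonneg_left h2 hu, mul_nonneg hKw hu']
  · have h1 := key z _ hn (by linarith) (by linarith [abs_nonneg s'])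
    have h2 : uu s z ≤ K0 ^ (1 / 2 : ℝ) * (1 + ‖z‖) ^ (-(1 / 2) : ℝ) := h1
    nlinarith [mul_le_mul_of_nonneg_left h2 hu', mul_nonneg hKw hu]

theorem quad_aux (u1 u2 u3 u4 w K : ℝ) (h1 : 0 ≤ u1) (h2 : 0 ≤ u2) (h3 : 0 ≤ u3) (h4 : 0 ≤ u4)
    (hw : 0 ≤ w) (hK : 0 ≤ K) (h12 : u1 * u2 ≤ K * w * (u1 + u2)) (h13 : u1 * u3 ≤ K * w * (u1 + u3))
    (h23 : u2 * u3 ≤ K * w * (u2 + u3)) (h34 : u3 * u4 ≤ K * w * (u3 + u4))
    (h14 : u1 * u4 ≤ K * w * (u1 + u4)) (h24 : u2 * u4 ≤ K * w * (u2 + u4)) :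
    u1 * u2 * u3 * u4 ≤ 4 * (K * w) ^ 3 * (u1 + u2 + u3 + u4) := by
  have hq : 0 ≤ K * w := mul_nonneg hK hw
  set q := K * w
  have t1 : u1 * u3 * u4 ≤ q ^ 2 * (u1 + u3 + 2 * u4) := by
    have a1 : u1 * u3 * u4 ≤ q * (u1 + u3) * u4 := mul_le_mul_of_nonneg_right h13 h4
    have a2 : q * (u1 + u3) * u4 = q * (u1 * u4 + u3 * u4) := by ring
    have a3 : q * (u1 * u4 + u3 * u4) ≤ q * (q * (u1 + u4) + q * (u3 + u4)) :=
      mul_le_mul_of_nonneg_left (by linarith) hq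
    nlinarith
  have t2 : u2 * u3 * u4 ≤ q ^ 2 * (u2 + u3 + 2 * u4) := by
    have a1 : u2 * u3 * u4 ≤ q * (u2 + u3) * u4 := mul_le_mul_of_nonneg_right h23 h4
    have a2 : q * (u2 + u3) * u4 = q * (u2 * u4 + u3 * u4) := by ring
    have a3 : q * (u2 * u4 + u3 * u4) ≤ q * (q * (u2 + u4) + q * (u3 + u4)) :=
      mul_le_mul_of_nonneg_left (by linarith) hq
    nlinarith
  have t3 : u1 * u2 * u3 * u4 ≤ q * (u1 + u2) * (u3 * u4) := by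
    have := mul_le_mul_of_nonneg_right h12 (mul_nonneg h3 h4)
    linarith [this]
  have t4 : q * (u1 + u2) * (u3 * u4) = q * (u1 * u3 * u4 + u2 * u3 * u4) := by ring
  have t5 : q * (u1 * u3 * u4 + u2 * u3 * u4) ≤
      q * (q ^ 2 * (u1 + u3 + 2 * u4) + q ^ 2 * (u2 + u3 + 2 * u4)) :=
    mul_le_mul_of_nonneg_left (by linarith) hq
  have t6 : 0 ≤ q ^ 3 := by positivity
  have t7 : q * (q ^ 2 * (u1 + u3 + 2 * u4) + q ^ 2 * (u2 + u3 + 2 * u4)) =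
      q ^ 3 * (u1 + u2 + 2 * u3 + 4 * u4) := by ring
  have t8 : q ^ 3 * (u1 + u2 + 2 * u3 + 4 * u4) ≤ q ^ 3 * (4 * (u1 + u2 + u3 + u4)) :=
    mul_le_mul_of_nonneg_left (by linarith) t6
  linarith

theorem mem_Ucm {S : Finset ℝ} {z : ℂ} : z ∈ Ucm S ↔ 0 ≤ z.im ∧ ∀ s ∈ S, z ≠ ((s : ℝ) : ℂ) := Iff.rfl

theorem mem_Ucm_SS {cd : CD Hm Hp C} {V W : Gap cd} {z : ℂ} (hz : z ∈ Ucm (SS V W)) :
    0 ≤ z.im ∧ z ≠ (V.a : ℂ) ∧ z ≠ (V.b : ℂ) ∧ z ≠ (W.a : ℂ) ∧ z ≠ (W.b : ℂ) := by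
  refine ⟨hz.1, hz.2 _ ?_, hz.2 _ ?_, hz.2 _ ?_, hz.2 _ ?_⟩ <;> simp [SS]

theorem FG_cont (cd : CD Hm Hp C) (N : ℝ) (V W : Gap cd) : ContinuousOn (FG cd N V W) (Ucm (SS V W)) := by
  have h1 : ContinuousOn cd.f (Ucm (SS V W)) := cd.cont.mono (fun z hz => hz.1)
  have h2 : ContinuousOn (qc V.a V.b) (Ucm (SS V W)) :=
    (qc_continuousOn V.a V.b).mono (fun z hz => by
      obtain ⟨a, b, c, d, e⟩ := mem_Ucm_SS hz
      exact ⟨a, b, c⟩)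
  have h3 : ContinuousOn (qc W.a W.b) (Ucm (SS V W)) :=
    (qc_continuousOn W.a W.b).mono (fun z hz => by
      obtain ⟨a, b, c, d, e⟩ := mem_Ucm_SS hz
      exact ⟨a, d, e⟩)
  refine (h1.sub continuousOn_const).div (h2.mul h3) (fun z hz => ?_)
  obtain ⟨a, b, c, d, e⟩ := mem_Ucm_SS hz
  exact mul_ne_zero (qc_ne_zero b c) (qc_ne_zero d e)

theorem ne_real_of_im {z : ℂ} (hz : 0 < z.im) (s : ℝ) : z ≠ (s : ℂ) := by
  intro h
  rw [h] at hz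
  simp at hz

theorem FG_diff (cd : CD Hm Hp C) (N : ℝ) (V W : Gap cd) : DifferentiableOn ℂ (FG cd N V W) Uo := by
  intro z hz
  have hz' : 0 < z.im := hz
  have h1 : DifferentiableWithinAt ℂ cd.f Uo z := cd.ana z hz
  have h2 : DifferentiableWithinAt ℂ (qc V.a V.b) Uo z := (qc_differentiableAt _ _ hz').differentiableWithinAt
  have h3 : DifferentiableWithinAt ℂ (qc W.a W.b) Uo z := (qc_differentiableAt _ _ hz').differentiableWithinAt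
  refine (h1.sub_const _).div (h2.mul h3) ?_
  exact mul_ne_zero (qc_ne_zero (ne_real_of_im hz' _) (ne_real_of_im hz' _))
    (qc_ne_zero (ne_real_of_im hz' _) (ne_real_of_im hz' _))

theorem inv_rpow_half (x : ℝ) (hx : 0 < x) : (x ^ (1 / 2 : ℝ))⁻¹ = x ^ (-(1 / 2) : ℝ) := by
  rw [Real.rpow_neg hx.le]

theorem norm_FG (cd : CD Hm Hp C) (N : ℝ) (V W : Gap cd) {z : ℂ} (hz : z ∈ Ucm (SS V W)) :
    ‖FG cd N V W z‖ = ‖cd.f z - N‖ * (uu V.a z * uu V.b z * uu W.a z * uu W.b z) := by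
  obtain ⟨a, b, c, d, e⟩ := mem_Ucm_SS hz
  rw [FG, norm_div, norm_mul, norm_qc, norm_qc, div_eq_mul_inv, mul_inv, mul_inv, mul_inv]
  simp only [uu]
  rw [inv_rpow_half _ (norm_pos_iff.mpr (sub_ne_zero.mpr b)), inv_rpow_half _ (norm_pos_iff.mpr (sub_ne_zero.mpr c)),
    inv_rpow_half _ (norm_pos_iff.mpr (sub_ne_zero.mpr d)), inv_rpow_half _ (norm_pos_iff.mpr (sub_ne_zero.mpr e))]
  ring

theorem wS_SS {cd : CD Hm Hp C} {V W : Gap cd} (hVW : V.b < W.a ∨ W.b < V.a) (z : ℂ) :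
    wS (SS V W) z = 1 + (uu V.a z + uu V.b z + uu W.a z + uu W.b z) := by
  have h1 := V.lt
  have h2 := W.lt
  have d1 : V.a ≠ V.b := h1.ne
  have d2 : W.a ≠ W.b := h2.ne
  have d3 : V.a ≠ W.a := by rcases hVW with h | h <;> [exact (by linarith : V.a < W.a).ne; exact (by linarith : W.a < V.a).ne']
  have d4 : V.a ≠ W.b := by rcases hVW with h | h <;> [exact (by linarith : V.a < W.b).ne; exact (by linarith : W.b < V.a).ne']
  have d5 : V.b ≠ W.a := by rcases hVW with h | h <;> [exact (by linarith : V.b < W.a).ne; exact (by linarith : W.a < V.b).ne']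
  have d6 : V.b ≠ W.b := by rcases hVW with h | h <;> [exact (by linarith : V.b < W.b).ne; exact (by linarith : W.b < V.b).ne']
  rw [wS, SS, Finset.sum_insert, Finset.sum_insert, Finset.sum_insert, Finset.sum_singleton]
  · simp only [uu]
    ring
  · simpa using d2
  · simp [d5, d6]
  · simp [d1, d3, d4]

theorem FG_growth (cd : CD Hm Hp C) (N : ℝ) (V W : Gap cd) (hVW : V.b < W.a ∨ W.b < V.a) :
    ∃ A : ℝ, 0 ≤ A ∧ ∀ z ∈ Ucm (SS V W),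
      ‖FG cd N V W z‖ ≤ A * (1 + Real.log (1 + ‖z‖)) * (1 + ‖z‖) ^ (-(3 / 2) : ℝ) * wS (SS V W) z := by
  have h1 := V.lt
  have h2 := W.lt
  have d1 : V.a ≠ V.b := h1.ne
  have d2 : W.a ≠ W.b := h2.ne
  have d3 : V.a ≠ W.a := by rcases hVW with h | h <;> [exact (by linarith : V.a < W.a).ne; exact (by linarith : W.a < V.a).ne']
  have d4 : V.a ≠ W.b := by rcases hVW with h | h <;> [exact (by linarith : V.a < W.b).ne; exact (by linarith : W.b < V.a).ne']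
  have d5 : V.b ≠ W.a := by rcases hVW with h | h <;> [exact (by linarith : V.b < W.a).ne; exact (by linarith : W.a < V.b).ne']
  have d6 : V.b ≠ W.b := by rcases hVW with h | h <;> [exact (by linarith : V.b < W.b).ne; exact (by linarith : W.b < V.b).ne']
  obtain ⟨K1, hK1, p1⟩ := pair_aux _ _ d1
  obtain ⟨K2, hK2, p2⟩ := pair_aux _ _ d2
  obtain ⟨K3, hK3, p3⟩ := pair_aux _ _ d3
  obtain ⟨K4, hK4, p4⟩ := pair_aux _ _ d4
  obtain ⟨K5, hK5, p5⟩ := pair_aux _ _ d5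
  obtain ⟨K6, hK6, p6⟩ := pair_aux _ _ d6
  obtain ⟨A, hA⟩ := cd.growth
  set K := K1 + K2 + K3 + K4 + K5 + K6 with hK
  have hK0 : 0 ≤ K := by linarith
  refine ⟨(|A| + |N| + 1) * (4 * K ^ 3), by positivity, fun z hz => ?_⟩
  obtain ⟨a, b, c, d, e⟩ := mem_Ucm_SS hz
  rw [norm_FG cd N V W hz, wS_SS hVW]
  have hw : 0 ≤ (1 + ‖z‖) ^ (-(1 / 2) : ℝ) := by positivity
  have g : ∀ (K' : ℝ), K' ≤ K → ∀ s s' : ℝ,
      uu s z * uu s' z ≤ K' * (1 + ‖z‖) ^ (-(1 / 2) : ℝ) * (uu s z + uu s' z) →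
      uu s z * uu s' z ≤ K * (1 + ‖z‖) ^ (-(1 / 2) : ℝ) * (uu s z + uu s' z) := by
    intro K' hK' s s' h
    refine h.trans ?_
    apply mul_le_mul_of_nonneg_right _ (add_nonneg (uu_nonneg _ _) (uu_nonneg _ _))
    exact mul_le_mul_of_nonneg_right hK' hw
  have q := quad_aux (uu V.a z) (uu V.b z) (uu W.a z) (uu W.b z) ((1 + ‖z‖) ^ (-(1 / 2) : ℝ)) K
    (uu_nonneg _ _) (uu_nonneg _ _) (uu_nonneg _ _) (uu_nonneg _ _) hw hK0
    (g K1 (by linarith) _ _ (p1 z b c)) (g K3 (by linarith) _ _ (p3 z b d)) (g K5 (by linarith) _ _ (p5 z c d))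
    (g K2 (by linarith) _ _ (p2 z d e)) (g K4 (by linarith) _ _ (p4 z b e)) (g K6 (by linarith) _ _ (p6 z c e))
  have hw3 : (K * (1 + ‖z‖) ^ (-(1 / 2) : ℝ)) ^ 3 = K ^ 3 * (1 + ‖z‖) ^ (-(3 / 2) : ℝ) := by
    rw [mul_pow, ← Real.rpow_natCast ((1 + ‖z‖) ^ (-(1 / 2) : ℝ)) 3, ← Real.rpow_mul (by positivity)]
    norm_num
  rw [hw3] at q
  have hlog : 0 ≤ Real.log (1 + ‖z‖) := Real.log_nonneg (by linarith [norm_nonneg z])
  have hf : ‖cd.f z - N‖ ≤ (|A| + |N| + 1) * (1 + Real.log (1 + ‖z‖)) := by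
    have e1 : ‖cd.f z - N‖ ≤ ‖cd.f z‖ + ‖(N : ℂ)‖ := norm_sub_le _ _
    rw [Complex.norm_real, Real.norm_eq_abs] at e1
    have e2 := hA z a
    have e3 := le_abs_self A
    have e4 : 0 ≤ (|A| + |N|) * Real.log (1 + ‖z‖) := by positivity
    nlinarith
  set U := uu V.a z + uu V.b z + uu W.a z + uu W.b z
  have hU : 0 ≤ U := by
    have := uu_nonneg V.a z
    have := uu_nonneg V.b z
    have := uu_nonneg W.a z
    have := uu_nonneg W.b z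
    positivity
  have hP : 0 ≤ uu V.a z * uu V.b z * uu W.a z * uu W.b z := by
    have := uu_nonneg V.a z
    have := uu_nonneg V.b z
    have := uu_nonneg W.a z
    have := uu_nonneg W.b z
    positivity
  have hw33 : 0 ≤ (1 + ‖z‖) ^ (-(3 / 2) : ℝ) := by positivity
  calc ‖cd.f z - N‖ * (uu V.a z * uu V.b z * uu W.a z * uu W.b z)
      ≤ ((|A| + |N| + 1) * (1 + Real.log (1 + ‖z‖))) * (4 * (K ^ 3 * (1 + ‖z‖) ^ (-(3 / 2) : ℝ)) * U) :=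
        mul_le_mul hf q hP (by positivity)
    _ ≤ ((|A| + |N| + 1) * (1 + Real.log (1 + ‖z‖))) * (4 * (K ^ 3 * (1 + ‖z‖) ^ (-(3 / 2) : ℝ)) * (1 + U)) := by
        apply mul_le_mul_of_nonneg_left _ (by positivity)
        apply mul_le_mul_of_nonneg_left (by linarith) (by positivity)
    _ = _ := by ring

/-! boundary values -/

theorem im_div_I (w : ℂ) (X : ℝ) : (w / (I * X)).im = -w.re / X := by
  by_cases hX : X = 0
  · simp [hX]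
  · have h : w / (I * (X : ℂ)) = -I * w / (X : ℂ) := by
      have hX' : (X : ℂ) ≠ 0 := by exact_mod_cast hX
      field_simp
      rw [Complex.I_sq]
      ring
    rw [h, Complex.div_ofReal_im]
    simp

theorem re_div_I (w : ℂ) (X : ℝ) : (w / (I * X)).re = w.im / X := by
  by_cases hX : X = 0
  · simp [hX]
  · have h : w / (I * (X : ℂ)) = -I * w / (X : ℂ) := by
      have hX' : (X : ℂ) ≠ 0 := by exact_mod_cast hX
      field_simp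
      rw [Complex.I_sq]
      ring
    rw [h, Complex.div_ofReal_re]
    simp

theorem FG_comm (cd : CD Hm Hp C) (N : ℝ) (V W : Gap cd) (z : ℂ) : FG cd N V W z = FG cd N W V z := by
  rw [FG, FG, mul_comm]

theorem FG_im_out (cd : CD Hm Hp C) (N : ℝ) (V W : Gap cd) {t : ℝ} (h1 : t ∉ Ioo V.a V.b) (h2 : t ∉ Ioo W.a W.b) :
    (FG cd N V W t).im = vf cd t / (V.q t * W.q t) := by
  rw [FG, qc_out V.lt h1, qc_out W.lt h2, ← Complex.ofReal_mul, Complex.div_ofReal_im]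
  simp [vf, Gap.q]

theorem FG_im_V (cd : CD Hm Hp C) (N : ℝ) (V W : Gap cd) {t : ℝ} (h1 : t ∈ Ioo V.a V.b) (h2 : t ∉ Ioo W.a W.b) :
    (FG cd N V W t).im = (N - V.N) / (W.q t * Real.sqrt ((t - V.a) * (V.b - t))) := by
  have e : FG cd N V W t = (cd.f t - N) / (I * ((Real.sqrt ((t - V.a) * (V.b - t)) * qr W.a W.b t : ℝ) : ℂ)) := by
    rw [FG, qc_in h1, qc_out W.lt h2]
    push_cast
    ring
  rw [e, im_div_I]
  have h3 : (cd.f t - (N : ℂ)).re = V.N - N := by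
    have := V.lab t ⟨h1.1.le, h1.2.le⟩
    rw [Complex.sub_re, Complex.ofReal_re]
    have h4 : (cd.f t).re = V.N := by simpa [Nf, Gap.N] using this
    rw [h4]
  rw [h3, Gap.q]
  congr 1
  · ring
  · ring

theorem FG_re_V (cd : CD Hm Hp C) (N : ℝ) (V W : Gap cd) {t : ℝ} (h1 : t ∈ Ioo V.a V.b) (h2 : t ∉ Ioo W.a W.b) :
    (FG cd N V W t).re = vf cd t / (W.q t * Real.sqrt ((t - V.a) * (V.b - t))) := by
  have e : FG cd N V W t = (cd.f t - N) / (I * ((Real.sqrt ((t - V.a) * (V.b - t)) * qr W.a W.b t : ℝ) : ℂ)) := by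
    rw [FG, qc_in h1, qc_out W.lt h2]
    push_cast
    ring
  rw [e, re_div_I, Gap.q]
  congr 1
  · simp [vf]
  · ring

theorem disj {cd : CD Hm Hp C} {V W : Gap cd} (hVW : V.b < W.a ∨ W.b < V.a) {t : ℝ} (h : t ∈ Ioo V.a V.b) :
    t ∉ Ioo W.a W.b := by
  intro h'
  rcases hVW with h0 | h0
  · linarith [h.2, h'.1]
  · linarith [h.1, h'.2]

end

end Pool.Agent.Helper39.CV
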