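import Mathlib
import Pool.Agent.Helper36.CV.StmtsP
import Pool.Agent.Helper39.CV.FG

set_option autoImplicit false
set_option linter.unusedVariables false

namespace Pool.Agent.Helper39.CV

open Complex Filter Topology MeasureTheory Set
open Pool.Agent.Helper36.CV

noncomputable section

variable {Hm Hp : ℝ} {C : Set ℝ}

theorem ae_not_four (a b c d : ℝ) : ∀ᵐ t : ℝ, t ≠ a ∧ t ≠ b ∧ t ≠ c ∧ t ≠ d := by
  have h : ∀ s : ℝ, ∀ᵐ t : ℝ, t ≠ s := fun s => by
    have : volume ({s} : Set ℝ) = 0 := Real.volume_singleton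
    rw [ae_iff]
    simp
  filter_upwards [h a, h b, h c, h d] with t h1 h2 h3 h4
  exact ⟨h1, h2, h3, h4⟩

theorem P4 (hA4 : ST_A4) : ST_P4 := by
  intro Hm Hp C cd V W _ hVW
  obtain ⟨A, hA0, hA⟩ := FG_growth cd V.N V W hVW
  obtain ⟨hint, hzero⟩ := hA4 (FG cd V.N V W) (SS V W) A (FG_cont cd V.N V W) (FG_diff cd V.N V W) hA
  set Fi : ℝ → ℝ := fun t => (FG cd V.N V W t).im with hFi
  have hFint : Integrable Fi := hint.im
  have hF0 : ∫ t, Fi t = 0 := by
    have := integral_im hint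
    have h2 : ∫ t : ℝ, (FG cd V.N V W t).im = (∫ t : ℝ, FG cd V.N V W t).im := this
    rw [hFi, h2, hzero]
    simp
  set h1 : ℝ → ℝ := fun t => vf cd t / (V.q t * W.q t) with hh1
  have m1 : MeasurableSet (Ioo W.a W.b) := measurableSet_Ioo
  have e1 : ∀ᵐ t : ℝ, (Ioo W.a W.b)ᶜ.indicator Fi t = h1 t := by
    filter_upwards [ae_not_four V.a V.b W.a W.b] with t ht
    by_cases hW : t ∈ Ioo W.a W.b
    · rw [indicator_of_notMem (by simpa using hW)]
      have h3 : W.q t = 0 := qr_in hW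
      simp [hh1, h3]
    · rw [indicator_of_mem (by simpa using hW)]
      by_cases hV : t ∈ Ioo V.a V.b
      · rw [hFi]
        simp only
        rw [FG_im_V cd V.N V W hV hW, sub_self, zero_div]
        have h3 : V.q t = 0 := qr_in hV
        simp [hh1, h3]
      · rw [hFi]
        simp only
        rw [FG_im_out cd V.N V W hV hW]
  have i1 : Integrable h1 := (hFint.indicator m1.compl).congr e1
  refine ⟨i1, ?_⟩
  have s1 : ∫ t, h1 t = ∫ t in (Ioo W.a W.b)ᶜ, Fi t := by
    rw [← integral_indicator m1.compl]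
    exact (integral_congr_ae e1).symm
  have s2 : (∫ t in Ioo W.a W.b, Fi t) + ∫ t in (Ioo W.a W.b)ᶜ, Fi t = 0 := by
    rw [integral_add_compl m1 hFint, hF0]
  have s3 : ∫ t in Ioo W.a W.b, Fi t = -(W.N - V.N) * (Real.pi * W.av (fun t => 1 / V.q t)) := by
    rw [Gap.av, intervalIntegral.integral_of_le W.lt.le, integral_Ioc_eq_integral_Ioo]
    have h4 : Real.pi * (1 / Real.pi * ∫ t in Ioo W.a W.b, 1 / V.q t / Real.sqrt ((t - W.a) * (W.b - t))) =
        ∫ t in Ioo W.a W.b, 1 / V.q t / Real.sqrt ((t - W.a) * (W.b - t)) := by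
      have := Real.pi_ne_zero
      field_simp
    rw [h4, ← integral_const_mul]
    refine setIntegral_congr_fun m1 (fun t ht => ?_)
    have h5 : t ∉ Ioo V.a V.b := fun h => disj hVW h ht
    have h6 : Fi t = (FG cd V.N W V t).im := by
      rw [hFi]
      simp only
      rw [FG_comm]
    rw [h6, FG_im_V cd V.N W V ht h5, div_div, mul_one_div]
    congr 1
    ring
  have s4 : ∫ t, h1 t = (W.N - V.N) * (Real.pi * W.av (fun t => 1 / V.q t)) := by
    rw [s1]
    rw [s3] at s2
    linarith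
  rw [s4]
  have := Real.pi_ne_zero
  field_simp

end

end Pool.Agent.Helper39.CV
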