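import Mathlib
import Pool.Agent.Helper36.CV.StmtsP
import Pool.Agent.Helper39.CV.FG
import Pool.Agent.Helper39.CV.P4

set_option autoImplicit false
set_option linter.unusedVariables false

namespace Pool.Agent.Helper39.CV

open Complex Filter Topology MeasureTheory Set
open Pool.Agent.Helper36.CV

noncomputable section

theorem P5 (hA3 : ST_A3) (hP3 : ST_P3) : ST_P5 := by
  intro Hm Hp C cd V W _ hVW
  obtain ⟨A, hA0, hA⟩ := FG_growth cd W.N V W hVW
  have hA' : ∀ z ∈ Ucm (SS V W), ‖FG cd W.N V W z‖ ≤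
      A * (1 + Real.log (1 + ‖z‖)) * (1 + ‖z‖) ^ (-(1 / 2) : ℝ) * wS (SS V W) z := by
    intro z hz
    refine (hA z hz).trans ?_
    have h1 : 0 ≤ Real.log (1 + ‖z‖) := Real.log_nonneg (by linarith [norm_nonneg z])
    have h2 : (1 + ‖z‖) ^ (-(3 / 2) : ℝ) ≤ (1 + ‖z‖) ^ (-(1 / 2) : ℝ) :=
      Real.rpow_le_rpow_of_exponent_le (by linarith [norm_nonneg z]) (by norm_num)
    have h3 : 0 ≤ wS (SS V W) z := by
      rw [wS]
      have : 0 ≤ ∑ s ∈ SS V W, ‖z - ((s : ℝ) : ℂ)‖ ^ (-(1 / 2) : ℝ) :=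
        Finset.sum_nonneg (fun s _ => Real.rpow_nonneg (norm_nonneg _) _)
      linarith
    apply mul_le_mul_of_nonneg_right _ h3
    exact mul_le_mul_of_nonneg_left h2 (by positivity)
  have hG := hA3 (FG cd W.N V W) (SS V W) A (FG_cont cd W.N V W) (FG_diff cd W.N V W) hA'
  set G := FG cd W.N V W with hGdef
  set c := W.c with hc
  have hWlt := W.lt
  have hVlt := V.lt
  have hcW : c ∈ Ioo W.a W.b := by
    rw [hc, Gap.c]
    constructor <;> linarith
  have hcV : c ∉ Icc V.a V.b := by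
    intro h
    rcases hVW with h0 | h0
    · linarith [h.2, hcW.1]
    · linarith [h.1, hcW.2]
  set r := (W.b - W.a) / 2 with hr
  have hr0 : 0 < r := by rw [hr]; linarith
  have hout : ∀ t : ℝ, t ∉ Ioo W.a W.b → r ≤ |t - c| := by
    intro t ht
    rcases le_or_gt t W.a with h | h
    · have : t - c ≤ -r := by rw [hc, Gap.c, hr]; linarith
      rw [le_abs]
      right
      linarith
    · have h' : W.b ≤ t := by
        by_contra hcon
        exact ht ⟨h, not_le.mp hcon⟩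
      have : r ≤ t - c := by rw [hc, Gap.c, hr]; linarith
      exact this.trans (le_abs_self _)
  set Gi : ℝ → ℝ := fun t => (G t).im with hGi
  have hGi0 : ∀ t ∈ Ioo W.a W.b, Gi t = 0 := by
    intro t ht
    have h5 : t ∉ Ioo V.a V.b := fun h => disj hVW h ht
    simp only [hGi, hGdef]
    rw [FG_comm, FG_im_V cd W.N W V ht h5, sub_self, zero_div]
  -- the points z η
  set zz : ℝ → ℂ := fun η => (c : ℂ) + (η : ℂ) * I with hzz
  have hzzim : ∀ η : ℝ, (zz η).im = η := by intro η; simp [hzz]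
  have hzzU : ∀ η : ℝ, 0 < η → zz η ∈ Uo := by
    intro η hη
    show 0 < (zz η).im
    rw [hzzim]
    exact hη
  have hcU : ((c : ℝ) : ℂ) ∈ Ucm (SS V W) := by
    refine ⟨by simp, ?_⟩
    intro s hs
    simp only [SS, Finset.mem_insert, Finset.mem_singleton] at hs
    have hne : c ≠ s := by
      rcases hs with h | h | h | h
      · rw [h]
        intro h'
        exact hcV ⟨h'.symm.le, by rw [h']; exact hVlt.le⟩
      · rw [h]
        intro h'
        exact hcV ⟨by rw [h']; exact hVlt.le, h'.le⟩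
      · rw [h]
        exact hcW.1.ne'
      · rw [h]
        exact hcW.2.ne
    exact_mod_cast hne
  have hlim1 : Tendsto (fun η : ℝ => G (zz η)) (𝓝[>] 0) (𝓝 (G (c : ℂ))) := by
    have h1 : ContinuousWithinAt G (Ucm (SS V W)) (c : ℂ) := FG_cont cd W.N V W _ hcU
    have h2 : Tendsto zz (𝓝[>] 0) (𝓝[Ucm (SS V W)] (c : ℂ)) := by
      rw [tendsto_nhdsWithin_iff]
      constructor
      · have h3 : Tendsto zz (𝓝 0) (𝓝 (zz 0)) := by
          apply Continuous.tendsto
          simp only [hzz]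
          fun_prop
        have h4 : zz 0 = (c : ℂ) := by simp [hzz]
        rw [h4] at h3
        exact h3.mono_left nhdsWithin_le_nhds
      · filter_upwards [self_mem_nhdsWithin] with η hη
        have hη' : (0 : ℝ) < η := hη
        refine ⟨by rw [hzzim]; exact hη'.le, fun s _ => ?_⟩
        exact ne_real_of_im (by rw [hzzim]; exact hη') s
    exact h1.tendsto.comp h2
  have hnorm : ∀ η : ℝ, ∀ t : ℝ, |t - c| ≤ ‖(t : ℂ) - zz η‖ := by
    intro η t
    have h1 : ((t : ℂ) - zz η).re = t - c := by simp [hzz]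
    rw [← h1]
    exact Complex.abs_re_le_norm _
  have hne : ∀ η : ℝ, 0 < η → ∀ t : ℝ, (t : ℂ) - zz η ≠ 0 := by
    intro η hη t h
    have h1 : ((t : ℂ) - zz η).im = 0 := by rw [h]; simp
    simp [hzz] at h1
    linarith
  have hz1 : ∀ t : ℝ, ‖(t : ℂ) - zz 1‖ ≤ |t - c| + 1 := by
    intro t
    have h1 : (t : ℂ) - zz 1 = ((t - c : ℝ) : ℂ) - I := by
      simp [hzz]
      ring
    rw [h1]
    refine (norm_sub_le _ _).trans ?_
    rw [Complex.norm_real, Complex.norm_I, Real.norm_eq_abs]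
  have hdom : ∀ (t : ℝ) (w : ℂ), t ∉ Ioo W.a W.b → |t - c| ≤ ‖w‖ →
      ‖((Gi t : ℝ) : ℂ) / w‖ ≤ (1 + 1 / r) * ‖((Gi t : ℝ) : ℂ) / ((t : ℂ) - zz 1)‖ := by
    intro t w ht hw
    have h0 := hout t ht
    have h1 : 0 < |t - c| := lt_of_lt_of_le hr0 h0
    have h2 : 0 < ‖(t : ℂ) - zz 1‖ := lt_of_lt_of_le h1 (hnorm 1 t)
    rw [norm_div, norm_div]
    have h3 : ‖w‖⁻¹ ≤ (1 + 1 / r) * ‖(t : ℂ) - zz 1‖⁻¹ := by
      have h4 : ‖(t : ℂ) - zz 1‖ ≤ (1 + 1 / r) * |t - c| := by
        refine (hz1 t).trans ?_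
        have : 1 ≤ 1 / r * |t - c| := by
          rw [one_div, inv_mul_eq_div, one_le_div hr0]
          exact h0
        linarith
      have h5 : ‖(t : ℂ) - zz 1‖ ≤ (1 + 1 / r) * ‖w‖ :=
        h4.trans (mul_le_mul_of_nonneg_left hw (by positivity))
      have hw0 : 0 < ‖w‖ := lt_of_lt_of_le h1 hw
      rw [← div_eq_mul_inv, le_div_iff₀ h2, inv_mul_le_iff₀ hw0]
      linarith
    calc ‖((Gi t : ℝ) : ℂ)‖ / ‖w‖ = ‖((Gi t : ℝ) : ℂ)‖ * ‖w‖⁻¹ := div_eq_mul_inv _ _
      _ ≤ ‖((Gi t : ℝ) : ℂ)‖ * ((1 + 1 / r) * ‖(t : ℂ) - zz 1‖⁻¹) :=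
          mul_le_mul_of_nonneg_left h3 (norm_nonneg _)
      _ = _ := by ring
  have hI1 : Integrable (fun t : ℝ => ((Gi t : ℝ) : ℂ) / ((t : ℂ) - zz 1)) := (hG _ (hzzU 1 one_pos)).1
  have hlim2 : Tendsto (fun η : ℝ => ∫ t : ℝ, ((Gi t : ℝ) : ℂ) / ((t : ℂ) - zz η)) (𝓝[>] 0)
      (𝓝 (∫ t : ℝ, ((Gi t : ℝ) : ℂ) / ((t : ℂ) - (c : ℂ)))) := by
    apply tendsto_integral_filter_of_dominated_convergence
      (fun t => (1 + 1 / r) * ‖((Gi t : ℝ) : ℂ) / ((t : ℂ) - zz 1)‖)
    · filter_upwards [self_mem_nhdsWithin] with η hη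
      exact (hG _ (hzzU η hη)).1.aestronglyMeasurable
    · filter_upwards [self_mem_nhdsWithin] with η hη
      refine Eventually.of_forall (fun t => ?_)
      by_cases ht : t ∈ Ioo W.a W.b
      · rw [hGi0 t ht]
        simp
      · exact hdom t _ ht (hnorm η t)
    · exact hI1.norm.const_mul _
    · refine Eventually.of_forall (fun t => ?_)
      by_cases ht : t ∈ Ioo W.a W.b
      · rw [hGi0 t ht]
        simp
      · have h1 : (t : ℂ) - (c : ℂ) ≠ 0 := by
          have h2 := hout t ht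
          intro h
          have h3 : t - c = 0 := by exact_mod_cast h
          rw [h3, abs_zero] at h2
          linarith
        have h3 : Tendsto (fun η : ℝ => (t : ℂ) - zz η) (𝓝[>] 0) (𝓝 ((t : ℂ) - (c : ℂ))) := by
          have h4 : Tendsto (fun η : ℝ => (t : ℂ) - zz η) (𝓝 0) (𝓝 ((t : ℂ) - zz 0)) := by
            apply Continuous.tendsto
            simp only [hzz]
            fun_prop
          have h5 : zz 0 = (c : ℂ) := by simp [hzz]
          rw [h5] at h4
          exact h4.mono_left nhdsWithin_le_nhds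
        exact tendsto_const_nhds.div h3 h1
  have hGc : G (c : ℂ) = (1 / Real.pi : ℝ) * ∫ t : ℝ, ((Gi t : ℝ) : ℂ) / ((t : ℂ) - (c : ℂ)) := by
    refine tendsto_nhds_unique hlim1 ?_
    have h1 : Tendsto (fun η : ℝ => ((1 / Real.pi : ℝ) : ℂ) * ∫ t : ℝ, ((Gi t : ℝ) : ℂ) / ((t : ℂ) - zz η)) (𝓝[>] 0)
        (𝓝 (((1 / Real.pi : ℝ) : ℂ) * ∫ t : ℝ, ((Gi t : ℝ) : ℂ) / ((t : ℂ) - (c : ℂ)))) :=
      tendsto_const_nhds.mul hlim2
    refine h1.congr' ?_
    filter_upwards [self_mem_nhdsWithin] with η hη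
    exact (hG _ (hzzU η hη)).2.symm
  -- real form
  set H : ℝ → ℝ := fun t => Gi t / (t - c) with hH
  have hHc : ∀ t : ℝ, ((Gi t : ℝ) : ℂ) / ((t : ℂ) - (c : ℂ)) = ((H t : ℝ) : ℂ) := by
    intro t
    simp only [hH]
    push_cast
    rfl
  have hHintC : Integrable (fun t : ℝ => ((Gi t : ℝ) : ℂ) / ((t : ℂ) - (c : ℂ))) := by
    have h1 : (fun t : ℝ => ((Gi t : ℝ) : ℂ) / ((t : ℂ) - (c : ℂ))) =
        fun t : ℝ => (((Gi t : ℝ) : ℂ) / ((t : ℂ) - zz 1)) * (((t : ℂ) - zz 1) / ((t : ℂ) - (c : ℂ))) := by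
      funext t
      have := hne 1 one_pos t
      field_simp
    refine Integrable.mono' (hI1.norm.const_mul (1 + 1 / r)) ?_ ?_
    · rw [h1]
      apply hI1.aestronglyMeasurable.mul
      apply Measurable.aestronglyMeasurable
      fun_prop
    · refine Eventually.of_forall (fun t => ?_)
      by_cases ht : t ∈ Ioo W.a W.b
      · rw [hGi0 t ht]
        simp
      · refine hdom t _ ht ?_
        rw [← Complex.ofReal_sub, Complex.norm_real, Real.norm_eq_abs]
  have hHint : Integrable H := by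
    have h1 := hHintC.re
    refine h1.congr (Eventually.of_forall (fun t => ?_))
    simp only
    rw [hHc]
    simp
  have hGre : (G (c : ℂ)).re = (1 / Real.pi) * ∫ t, H t := by
    rw [hGc]
    have h1 : (∫ t : ℝ, ((Gi t : ℝ) : ℂ) / ((t : ℂ) - (c : ℂ))) = ((∫ t, H t : ℝ) : ℂ) := by
      rw [← integral_complex_ofReal]
      exact integral_congr_ae (Eventually.of_forall (fun t => hHc t))
    rw [h1, ← Complex.ofReal_mul, Complex.ofReal_re]
  set h1 : ℝ → ℝ := fun t => vf cd t / (V.q t * W.q t * (t - W.c)) with hh1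
  have m1 : MeasurableSet (Ioo V.a V.b) := measurableSet_Ioo
  have e1 : ∀ᵐ t : ℝ, (Ioo V.a V.b)ᶜ.indicator H t = h1 t := by
    refine Eventually.of_forall (fun t => ?_)
    by_cases hV : t ∈ Ioo V.a V.b
    · rw [indicator_of_notMem (by simpa using hV)]
      have h3 : V.q t = 0 := qr_in hV
      simp [hh1, h3]
    · rw [indicator_of_mem (by simpa using hV)]
      by_cases hW : t ∈ Ioo W.a W.b
      · simp only [hH, hh1]
        have h3 : W.q t = 0 := qr_in hW
        rw [hGi0 t hW, h3]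
        simp
      · simp only [hH, hh1, hGi, hGdef]
        rw [FG_im_out cd W.N V W hV hW, div_div]
  have i1 : Integrable h1 := (hHint.indicator m1.compl).congr e1
  refine ⟨i1, ?_⟩
  have s1 : ∫ t, h1 t = ∫ t in (Ioo V.a V.b)ᶜ, H t := by
    rw [← integral_indicator m1.compl]
    exact (integral_congr_ae e1).symm
  have s2 : (∫ t in Ioo V.a V.b, H t) + ∫ t in (Ioo V.a V.b)ᶜ, H t = ∫ t, H t :=
    integral_add_compl m1 hHint
  have s3 : ∫ t in Ioo V.a V.b, H t =
      (W.N - V.N) * (Real.pi * V.av (fun t => 1 / ((t - W.c) * W.q t))) := by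
    rw [Gap.av, intervalIntegral.integral_of_le V.lt.le, integral_Ioc_eq_integral_Ioo]
    have h4 : Real.pi * (1 / Real.pi * ∫ t in Ioo V.a V.b,
        1 / ((t - W.c) * W.q t) / Real.sqrt ((t - V.a) * (V.b - t))) =
        ∫ t in Ioo V.a V.b, 1 / ((t - W.c) * W.q t) / Real.sqrt ((t - V.a) * (V.b - t)) := by
      have := Real.pi_ne_zero
      field_simp
    rw [h4, ← integral_const_mul]
    refine setIntegral_congr_fun m1 (fun t ht => ?_)
    have h5 : t ∉ Ioo W.a W.b := disj hVW ht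
    simp only [hH, hGi, hGdef]
    rw [FG_im_V cd W.N V W ht h5, div_div, div_div, mul_one_div]
    congr 1
    ring
  have hre : (G (c : ℂ)).re = W.kk / V.q W.c := by
    have h5 : c ∉ Ioo V.a V.b := fun h => hcV ⟨h.1.le, h.2.le⟩
    have h6 : G (c : ℂ) = FG cd W.N W V (c : ℂ) := by rw [hGdef, FG_comm]
    rw [h6, FG_re_V cd W.N W V hcW h5]
    have h7 := (((hP3 Hm Hp C cd W.a W.b W.N hWlt (fun t ht => W.lab t ht)).1) c hcW).2.2
    rw [h7, Gap.kk]
    have h8 : 0 < Real.sqrt ((c - W.a) * (W.b - c)) :=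
      Real.sqrt_pos.mpr (mul_pos (by linarith [hcW.1]) (by linarith [hcW.2]))
    have h9 : V.q c ≠ 0 := qr_ne_zero hcV hVlt
    rw [← hc]
    field_simp
  have hq0 : V.q W.c ≠ 0 := qr_ne_zero hcV hVlt
  have hfin : W.kk = V.q W.c * ((1 / Real.pi) * ∫ t, H t) := by
    rw [← hGre, hre]
    field_simp
  rw [hfin, ← s2, s3, ← s1]
  have := Real.pi_ne_zero
  congr 1
  rw [mul_add]
  congr 1
  field_simp
  rw [hc]

end

end Pool.Agent.Helper39.CV
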