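import Mathlib
import Pool.Agent.Helper36.CV.StmtsQ

set_option autoImplicit false
set_option linter.unusedVariables false

namespace Pool.Agent.Helper39.CV

open Complex Filter Topology MeasureTheory Set
open Pool.Agent.Helper36.CV

noncomputable section

theorem rpow_small (a c : ℝ) (ha : 0 < a) (hc : 0 < c) :
    ∃ ε0 : ℝ, 0 < ε0 ∧ ∀ ε : ℝ, 0 < ε → ε ≤ ε0 → ε ^ a ≤ c := by
  refine ⟨c ^ (1 / a), by positivity, fun ε h0 h1 => ?_⟩
  calc ε ^ a ≤ (c ^ (1 / a)) ^ a := Real.rpow_le_rpow h0.le h1 ha.le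
    _ = c := by
      rw [← Real.rpow_mul hc.le]
      have : 1 / a * a = 1 := by field_simp
      rw [this, Real.rpow_one]

/-- number of dyadic shells -/
theorem shells_small (c : ℝ) : ∃ ε0 : ℝ, 0 < ε0 ∧ ∀ ε : ℝ, 0 < ε → ε ≤ ε0 →
    ∃ n : ℕ, ε ^ (-(21 / 20) : ℝ) ≤ 2 ^ n ∧ c * n ≤ ε ^ (-(1 / 100) : ℝ) := by
  have hlim : Tendsto (fun ε : ℝ => Real.log ε * ε ^ (1 / 100 : ℝ)) (𝓝[>] 0) (𝓝 0) :=
    tendsto_log_mul_rpow_nhdsGT_zero (by norm_num)
  have h1 : ∀ᶠ ε : ℝ in 𝓝[>] 0, |Real.log ε * ε ^ (1 / 100 : ℝ)| < 1 / (4 * (|c| + 1)) := by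
    have := hlim.abs
    rw [abs_zero] at this
    exact this.eventually (gt_mem_nhds (by positivity))
  obtain ⟨ε1, hε1, h2⟩ := mem_nhdsGT_iff_exists_Ioo_subset.mp h1
  have hε1' : (0 : ℝ) < ε1 := hε1
  obtain ⟨ε2, hε2, h3⟩ := rpow_small (1 / 100) (1 / (4 * (|c| + 1))) (by norm_num) (by positivity)
  refine ⟨min (ε1 / 2) (min ε2 1), by positivity, fun ε h0 hε => ?_⟩
  have hεa : ε ≤ ε1 / 2 := hε.trans (min_le_left _ _)
  have hεb : ε ≤ ε2 := hε.trans ((min_le_right _ _).trans (min_le_left _ _))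
  have hεc : ε ≤ 1 := hε.trans ((min_le_right _ _).trans (min_le_right _ _))
  have h4 : |Real.log ε * ε ^ (1 / 100 : ℝ)| < 1 / (4 * (|c| + 1)) := h2 ⟨h0, by linarith⟩
  have h5 := h3 ε h0 hεb
  set L := -Real.log ε with hL
  have hL0 : 0 ≤ L := by
    have := Real.log_nonpos h0.le hεc
    linarith
  refine ⟨⌈2 * L⌉₊, ?_, ?_⟩
  · have h6 : ε ^ (-(21 / 20) : ℝ) = Real.exp (21 / 20 * L) := by
      rw [Real.rpow_def_of_pos h0]
      congr 1
      rw [hL]
      ring
    rw [h6]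
    have h7 : Real.exp (21 / 20 * L) ≤ (2 : ℝ) ^ (2 * L) := by
      rw [Real.rpow_def_of_pos (by norm_num)]
      apply Real.exp_le_exp.mpr
      have := Real.log_two_gt_d9
      nlinarith
    refine h7.trans ?_
    rw [← Real.rpow_natCast]
    exact Real.rpow_le_rpow_of_exponent_le (by norm_num) (Nat.le_ceil _)
  · have h6 : (⌈2 * L⌉₊ : ℝ) ≤ 2 * L + 1 := (Nat.ceil_lt_add_one (by positivity)).le
    have hp : 0 < ε ^ (1 / 100 : ℝ) := by positivity
    rw [Real.rpow_neg h0.le, ← one_div, le_div_iff₀ hp]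
    have h7 : L * ε ^ (1 / 100 : ℝ) ≤ 1 / (4 * (|c| + 1)) := by
      have : |Real.log ε * ε ^ (1 / 100 : ℝ)| = L * ε ^ (1 / 100 : ℝ) := by
        rw [abs_mul, abs_of_pos hp, abs_of_nonpos (by linarith)]
      linarith
    have h8 : (2 * L + 1) * ε ^ (1 / 100 : ℝ) ≤ 3 / (4 * (|c| + 1)) := by
      have : (3 : ℝ) / (4 * (|c| + 1)) = 2 * (1 / (4 * (|c| + 1))) + 1 / (4 * (|c| + 1)) := by ring
      rw [this]
      nlinarith
    have h9 : (⌈2 * L⌉₊ : ℝ) * ε ^ (1 / 100 : ℝ) ≤ 3 / (4 * (|c| + 1)) :=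
      (mul_le_mul_of_nonneg_right h6 hp.le).trans h8
    have h10 : 0 ≤ (⌈2 * L⌉₊ : ℝ) * ε ^ (1 / 100 : ℝ) := by positivity
    calc c * (⌈2 * L⌉₊ : ℝ) * ε ^ (1 / 100 : ℝ) ≤ |c| * ((⌈2 * L⌉₊ : ℝ) * ε ^ (1 / 100 : ℝ)) := by
          rw [mul_assoc]
          exact mul_le_mul_of_nonneg_right (le_abs_self c) h10
      _ ≤ |c| * (3 / (4 * (|c| + 1))) := mul_le_mul_of_nonneg_left h9 (abs_nonneg c)
      _ ≤ 1 := by
          rw [mul_div_assoc', div_le_one (by positivity)]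
          nlinarith [abs_nonneg c]

/-- dyadic shells -/
theorem shells (v : ℝ → ℝ) (x ρ D0 B : ℝ) (k : ℕ) (hρ : 0 < ρ) (hB : 0 ≤ B) (hv : ∀ t, 0 ≤ v t)
    (hvi : ∀ a b : ℝ, IntegrableOn v (Icc a b))
    (hm : ∀ d, ρ ≤ d → d ≤ D0 → ∫ t in Icc (x - d) (x + d), v t ≤ B * d ^ k) (n : ℕ) :
    ∀ D, ρ ≤ D → D ≤ D0 → D ≤ 2 ^ n * ρ →
    IntegrableOn (fun t => v t / |t - x| ^ k) (Icc (x - D) (x + D) \ Icc (x - ρ) (x + ρ)) ∧
    ∫ t in Icc (x - D) (x + D) \ Icc (x - ρ) (x + ρ), v t / |t - x| ^ k ≤ n * (2 ^ k * B) := by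
  have hvim : AEStronglyMeasurable v volume := by
    have h1 : LocallyIntegrable v volume := by
      intro t
      exact ⟨Icc (t - 1) (t + 1), Icc_mem_nhds (by linarith) (by linarith), hvi _ _⟩
    exact h1.aestronglyMeasurable
  have hint : ∀ r R : ℝ, 0 < r → IntegrableOn (fun t => v t / |t - x| ^ k)
      (Icc (x - R) (x + R) \ Icc (x - r) (x + r)) := by
    intro r R hr
    have h1 : IntegrableOn (fun t => (1 / r ^ k) * v t) (Icc (x - R) (x + R) \ Icc (x - r) (x + r)) :=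
      ((hvi _ _).mono_set sdiff_subset).const_mul _
    refine Integrable.mono' h1 ?_ ?_
    · have : AEStronglyMeasurable (fun t => v t / |t - x| ^ k) volume := by
        apply hvim.div₀
        apply Measurable.aestronglyMeasurable
        fun_prop
      exact this.restrict
    · refine (ae_restrict_mem (measurableSet_Icc.diff measurableSet_Icc)).mono (fun t ht => ?_)
      have h2 : r < |t - x| := by
        by_contra hc
        rw [not_lt, abs_le] at hc
        exact ht.2 ⟨by linarith [hc.1], by linarith [hc.2]⟩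
      have h3 : r ^ k ≤ |t - x| ^ k := pow_le_pow_left₀ hr.le h2.le k
      have h4 : 0 < r ^ k := by positivity
      rw [Real.norm_eq_abs, abs_of_nonneg (div_nonneg (hv t) (by positivity)), div_eq_mul_one_div, mul_comm]
      exact mul_le_mul_of_nonneg_right (one_div_le_one_div_of_le h4 h3) (hv t)
  induction n with
  | zero =>
    intro D h1 h2 h3
    have h4 : D = ρ := by
      apply le_antisymm _ h1
      simpa using h3
    refine ⟨hint ρ D hρ, ?_⟩
    rw [h4, sdiff_self]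
    simp
  | succ n ih =>
    intro D h1 h2 h3
    refine ⟨hint ρ D hρ, ?_⟩
    by_cases hD : D ≤ 2 ^ n * ρ
    · refine (ih D h1 h2 hD).2.trans ?_
      have : 0 ≤ 2 ^ k * B := by positivity
      push_cast
      nlinarith
    · rw [not_le] at hD
      set D' := max ρ (D / 2) with hD'
      have hD'0 : ρ ≤ D' := le_max_left _ _
      have hD'1 : D' ≤ D := max_le h1 (by linarith)
      have hD'2 : D' ≤ 2 ^ n * ρ := by
        apply max_le
        · have : (1 : ℝ) ≤ 2 ^ n := one_le_pow₀ (by norm_num)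
          nlinarith
        · rw [pow_succ] at h3
          linarith
      have hD'3 : D ≤ 2 * D' := by
        have := le_max_right ρ (D / 2)
        linarith
      obtain ⟨i1, i2⟩ := ih D' hD'0 (hD'1.trans h2) hD'2
      have hD'p : 0 < D' := lt_of_lt_of_le hρ hD'0
      have hsplit : Icc (x - D) (x + D) \ Icc (x - ρ) (x + ρ) =
          (Icc (x - D) (x + D) \ Icc (x - D') (x + D')) ∪ (Icc (x - D') (x + D') \ Icc (x - ρ) (x + ρ)) := by
        ext t
        simp only [Set.mem_sdiff, Set.mem_union, Set.mem_Icc]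
        constructor
        · intro h
          by_cases h' : x - D' ≤ t ∧ t ≤ x + D'
          · right
            exact ⟨h', h.2⟩
          · left
            exact ⟨h.1, h'⟩
        · rintro (h | h)
          · refine ⟨h.1, fun h' => h.2 ⟨by linarith [h'.1], by linarith [h'.2]⟩⟩
          · exact ⟨⟨by linarith [h.1.1], by linarith [h.1.2]⟩, h.2⟩
      have hdisj : Disjoint (Icc (x - D) (x + D) \ Icc (x - D') (x + D'))
          (Icc (x - D') (x + D') \ Icc (x - ρ) (x + ρ)) := by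
        rw [Set.disjoint_left]
        intro t h h'
        exact h.2 h'.1
      rw [hsplit, setIntegral_union hdisj (measurableSet_Icc.diff measurableSet_Icc) (hint D' D hD'p) i1]
      have h5 : ∫ t in Icc (x - D) (x + D) \ Icc (x - D') (x + D'), v t / |t - x| ^ k ≤ 2 ^ k * B := by
        have h6 : ∫ t in Icc (x - D) (x + D) \ Icc (x - D') (x + D'), v t / |t - x| ^ k ≤
            ∫ t in Icc (x - D) (x + D) \ Icc (x - D') (x + D'), (1 / D' ^ k) * v t := by
          refine setIntegral_mono_on (hint D' D hD'p) (((hvi _ _).mono_set sdiff_subset).const_mul _)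
            (measurableSet_Icc.diff measurableSet_Icc) (fun t ht => ?_)
          have h2 : D' < |t - x| := by
            by_contra hc
            rw [not_lt, abs_le] at hc
            exact ht.2 ⟨by linarith [hc.1], by linarith [hc.2]⟩
          have h3 : D' ^ k ≤ |t - x| ^ k := pow_le_pow_left₀ hD'p.le h2.le k
          have h4 : 0 < D' ^ k := by positivity
          rw [div_eq_mul_one_div, mul_comm]
          exact mul_le_mul_of_nonneg_right (one_div_le_one_div_of_le h4 h3) (hv t)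
        refine h6.trans ?_
        rw [integral_const_mul]
        have h7 : ∫ t in Icc (x - D) (x + D) \ Icc (x - D') (x + D'), v t ≤ B * D ^ k := by
          refine (setIntegral_mono_set (hvi _ _) (Eventually.of_forall (fun t => hv t))
            (LE.le.eventuallyLE sdiff_subset)).trans (hm D h1 h2)
        have h8 : 0 ≤ 1 / D' ^ k := by positivity
        calc 1 / D' ^ k * ∫ t in Icc (x - D) (x + D) \ Icc (x - D') (x + D'), v t ≤ 1 / D' ^ k * (B * D ^ k) :=
              mul_le_mul_of_nonneg_left h7 h8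
          _ ≤ 1 / D' ^ k * (B * (2 * D') ^ k) := by
              apply mul_le_mul_of_nonneg_left _ h8
              apply mul_le_mul_of_nonneg_left _ hB
              exact pow_le_pow_left₀ (by linarith) hD'3 k
          _ = 2 ^ k * B := by
              rw [mul_pow]
              have : D' ^ k ≠ 0 := by positivity
              field_simp
      push_cast
      linarith

variable {Hm Hp : ℝ} {C : Set ℝ}

theorem vf_cont (cd : CD Hm Hp C) : Continuous (vf cd) := by
  have h1 : Continuous (fun t : ℝ => cd.f t) := by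
    rw [continuous_iff_continuousAt]
    intro t
    have h2 : ContinuousWithinAt cd.f {z | 0 ≤ z.im} (t : ℂ) := cd.cont _ (by simp)
    have h3 : Tendsto (fun s : ℝ => (s : ℂ)) (𝓝 t) (𝓝[{z : ℂ | 0 ≤ z.im}] (t : ℂ)) := by
      rw [tendsto_nhdsWithin_iff]
      exact ⟨Complex.continuous_ofReal.continuousAt, Eventually.of_forall (fun s => by simp)⟩
    exact h2.tendsto.comp h3
  exact Complex.continuous_im.comp h1

theorem vf_intOn (cd : CD Hm Hp C) (a b : ℝ) : IntegrableOn (vf cd) (Icc a b) :=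
  (vf_cont cd).integrableOn_Icc

theorem vf_nonneg (cd : CD Hm Hp C) (t : ℝ) : 0 ≤ vf cd t := cd.im_nonneg t

theorem dist_le_of_meets {cd : CD Hm Hp C} (W : Gap cd) {x d : ℝ} (hd : 0 ≤ d) (h : W.Meets x d) : W.dist x ≤ d := by
  rw [Gap.dist]
  refine max_le hd (max_le ?_ ?_)
  · linarith [h.1]
  · linarith [h.2]

theorem Q8 (hP1 : ST_P1) (hP2 : ST_P2) (hQ1 : ST_Q1) (hQ2 : ST_Q2) : ST_Q8 := by
  obtain ⟨e1, he1, hs1⟩ := shells_small 16
  obtain ⟨e2, he2, hs2⟩ := rpow_small (2 / 5) (1 / 81) (by norm_num) (by norm_num)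
  obtain ⟨e3, he3, hs3⟩ := rpow_small (3 / 40) (10 / 31) (by norm_num) (by norm_num)
  obtain ⟨e4, he4, hs4⟩ := rpow_small (1 / 100) (1 / 3) (by norm_num) (by norm_num)
  obtain ⟨e5, he5, hs5⟩ := rpow_small (3 / 5) (1 / 4) (by norm_num) (by norm_num)
  refine ⟨min e1 (min e2 (min e3 (min e4 (min e5 (1 / 10 ^ 4))))), by positivity, ?_⟩
  intro ε Hm Hp C cd hPar hε x ρ d D hρ hρd hdD hDε hReg
  have hε0 : 0 < ε := hPar.1
  have hHm : 0 < Hm := hPar.2.1
  have l1 : ε ≤ e1 := hε.trans (min_le_left _ _)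
  have l2 : ε ≤ e2 := hε.trans ((min_le_right _ _).trans (min_le_left _ _))
  have l3 : ε ≤ e3 := hε.trans ((min_le_right _ _).trans ((min_le_right _ _).trans (min_le_left _ _)))
  have l4 : ε ≤ e4 := hε.trans ((min_le_right _ _).trans ((min_le_right _ _).trans
    ((min_le_right _ _).trans (min_le_left _ _))))
  have l5 : ε ≤ e5 := hε.trans ((min_le_right _ _).trans ((min_le_right _ _).trans
    ((min_le_right _ _).trans ((min_le_right _ _).trans (min_le_left _ _)))))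
  have l6 : ε ≤ 1 / 10 ^ 4 := hε.trans ((min_le_right _ _).trans ((min_le_right _ _).trans
    ((min_le_right _ _).trans ((min_le_right _ _).trans (min_le_right _ _)))))
  obtain ⟨n, hn1, hn2⟩ := hs1 ε hε0 l1
  have hp2 := hs2 ε hε0 l2
  have hp3 := hs3 ε hε0 l3
  have hp4 := hs4 ε hε0 l4
  have hp5 := hs5 ε hε0 l5
  obtain ⟨p11, p12, p13, p14, p15, p16⟩ := hP1 Hm Hp C cd
  have hP2' := hP2 Hm Hp C cd hHm
  -- monotonicity of Y
  have Ypos : ∀ r : ℝ, 0 < r → 0 < Yf cd x r := fun r hr => (p13 x r r hr le_rfl).1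
  have Ymono : ∀ r r' : ℝ, 0 < r → r ≤ r' → Yf cd x r ≤ Yf cd x r' := fun r r' hr h => (p13 x r r' hr h).2.1
  have Ydiv : ∀ r r' : ℝ, 0 < r → r ≤ r' → Yf cd x r' ≤ r' / r * Yf cd x r := by
    intro r r' hr h
    have h1 := (p13 x r r' hr h).2.2
    have hr' : 0 < r' := lt_of_lt_of_le hr h
    rw [div_le_iff₀ hr'] at h1
    calc Yf cd x r' ≤ Yf cd x r / r * r' := h1
      _ = _ := by ring
  have hD0 : 0 < D := by linarith
  -- large labels
  have hmu : ∀ (r : ℝ), ρ ≤ r → r ≤ D → ∀ W : Gap cd, W.Meets x r →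
      ε ^ (2 / 5 : ℝ) ≤ |W.mu| * (Real.sqrt (r / ρ) * Yf cd x r) := by
    intro r hr hrD W hW
    have h1 : W.Meets x D := ⟨by linarith [hW.1], by linarith [hW.2]⟩
    have h2 := hReg.nv W h1 (fun h => h)
    rw [NV] at h2
    set m := max ρ (W.dist x) with hm
    have h3 : ρ ≤ m := le_max_left _ _
    have h4 : m ≤ r := max_le hr (dist_le_of_meets W (by linarith) hW)
    have hm0 : 0 < m := lt_of_lt_of_le hρ h3
    refine h2.trans ?_
    rw [mul_assoc]
    apply mul_le_mul_of_nonneg_left _ (abs_nonneg _)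
    apply mul_le_mul _ (Ymono m r hm0 h4) (Ypos m hm0).le (Real.sqrt_nonneg _)
    exact Real.sqrt_le_sqrt (div_le_div_of_nonneg_right h4 hρ.le)
  -- mass bound
  have hmass : ∀ (r : ℝ), ρ ≤ r → r ≤ D →
      ∫ t in Icc (x - r) (x + r), vf cd t ≤ 2 * ε ^ (6 / 5 : ℝ) * (r / ρ) * r * Yf cd x r := by
    intro r hr hrD
    have hr0 : 0 < r := lt_of_lt_of_le hρ hr
    set Y := Yf cd x r with hY
    have hY0 : 0 < Y := Ypos r hr0
    set q := Real.sqrt (r / ρ) with hq
    have hrρ : 1 ≤ r / ρ := by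
      rw [one_le_div hρ]
      exact hr
    have hq1 : 1 ≤ q := Real.one_le_sqrt.mpr hrρ
    have hq2 : q ^ 2 = r / ρ := Real.sq_sqrt (by positivity)
    set M := ε ^ (2 / 5 : ℝ) / (q * Y) with hM
    have hM0 : 0 < M := by positivity
    have hMY : M * Y = ε ^ (2 / 5 : ℝ) / q := by
      rw [hM]
      field_simp
    have hq3 : q ≤ ε ^ (-(21 / 40) : ℝ) := by
      have h1 : r / ρ ≤ ε ^ (-(21 / 20) : ℝ) := by
        rw [div_le_iff₀ hρ]
        exact hrD.trans hDε
      have h2 : (ε ^ (-(21 / 40) : ℝ)) ^ 2 = ε ^ (-(21 / 20) : ℝ) := by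
        rw [← Real.rpow_natCast, ← Real.rpow_mul hε0.le]
        norm_num
      rw [hq, Real.sqrt_le_left (by positivity), h2]
      exact h1
    have hMY2 : 31 / 10 * ε ≤ M * Y := by
      rw [hMY, le_div_iff₀ (by positivity)]
      have h1 : 31 / 10 * ε * q ≤ 31 / 10 * ε * ε ^ (-(21 / 40) : ℝ) :=
        mul_le_mul_of_nonneg_left hq3 (by positivity)
      refine h1.trans ?_
      have h2 : ε * ε ^ (-(21 / 40) : ℝ) = ε ^ (2 / 5 : ℝ) * ε ^ (3 / 40 : ℝ) := by
        rw [← Real.rpow_add hε0]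
        nth_rewrite 1 [← Real.rpow_one ε]
        rw [← Real.rpow_add hε0]
        norm_num
      have h3 : 31 / 10 * ε * ε ^ (-(21 / 40) : ℝ) = 31 / 10 * ε ^ (3 / 40 : ℝ) * ε ^ (2 / 5 : ℝ) := by
        rw [mul_assoc, h2]
        ring
      rw [h3]
      have h4 : 0 < ε ^ (2 / 5 : ℝ) := by positivity
      have h5 : 31 / 10 * ε ^ (3 / 40 : ℝ) ≤ 1 := by linarith
      nlinarith
    set M' := max M 1 with hM'
    have hM'1 : M ≤ M' := le_max_left _ _
    have h := (hQ2 ε Hm Hp C cd hPar l6 x r M' ∅ hr0 (le_max_right _ _) MeasurableSet.empty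
      (fun t ht => hReg.inn t ⟨by linarith [ht.1], by linarith [ht.2]⟩)
      (fun W hW => by
        right
        refine max_le ?_ ?_
        · rw [hM, div_le_iff₀ (by positivity)]
          exact hmu r hr hrD W hW
        · have := hReg.big W ⟨by linarith [hW.1], by linarith [hW.2]⟩
          linarith)
      (hMY2.trans (mul_le_mul_of_nonneg_right hM'1 hY0.le))).2
    rw [sdiff_empty] at h
    refine h.trans ?_
    have g1 : r / (Y * M' ^ 2) ≤ r / (Y * M ^ 2) := by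
      apply div_le_div_of_nonneg_left hr0.le (by positivity)
      apply mul_le_mul_of_nonneg_left _ hY0.le
      exact pow_le_pow_left₀ hM0.le hM'1 2
    have g2 : 81 * r / M' ≤ 81 * r / M := div_le_div_of_nonneg_left (by positivity) hM0 hM'1
    have g3 : r / (Y * M ^ 2) = (r / ρ) * r * Y * ε ^ (-(4 / 5) : ℝ) := by
      have h1 : ε ^ (-(4 / 5) : ℝ) = 1 / (ε ^ (2 / 5 : ℝ)) ^ 2 := by
        rw [← Real.rpow_natCast, ← Real.rpow_mul hε0.le, one_div, ← Real.rpow_neg hε0.le]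
        norm_num
      rw [h1, hM, ← hq2]
      have : ε ^ (2 / 5 : ℝ) ≠ 0 := by positivity
      field_simp
    have g4 : 81 * r / M = 81 * (q * r * Y * ε ^ (-(2 / 5) : ℝ)) := by
      rw [hM, Real.rpow_neg hε0.le]
      have : ε ^ (2 / 5 : ℝ) ≠ 0 := by positivity
      field_simp
    have g5 : ε ^ 2 * ((r / ρ) * r * Y * ε ^ (-(4 / 5) : ℝ)) = ε ^ (6 / 5 : ℝ) * ((r / ρ) * r * Y) := by
      have h1 : ε ^ 2 * ε ^ (-(4 / 5) : ℝ) = ε ^ (6 / 5 : ℝ) := by
        rw [← Real.rpow_natCast, ← Real.rpow_add hε0]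
        norm_num
      rw [← h1]
      ring
    have g6 : ε ^ 2 * (81 * (q * r * Y * ε ^ (-(2 / 5) : ℝ))) ≤ ε ^ (6 / 5 : ℝ) * ((r / ρ) * r * Y) := by
      have h1 : ε ^ 2 * ε ^ (-(2 / 5) : ℝ) = ε ^ (6 / 5 : ℝ) * ε ^ (2 / 5 : ℝ) := by
        rw [← Real.rpow_natCast, ← Real.rpow_add hε0, ← Real.rpow_add hε0]
        norm_num
      have h2 : ε ^ 2 * (81 * (q * r * Y * ε ^ (-(2 / 5) : ℝ))) =
          ε ^ (6 / 5 : ℝ) * ((81 * ε ^ (2 / 5 : ℝ)) * (q * (r * Y))) := by
        calc ε ^ 2 * (81 * (q * r * Y * ε ^ (-(2 / 5) : ℝ))) =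
            (ε ^ 2 * ε ^ (-(2 / 5) : ℝ)) * (81 * (q * (r * Y))) := by ring
          _ = _ := by
            rw [h1]
            ring
      rw [h2]
      apply mul_le_mul_of_nonneg_left _ (by positivity)
      have h3 : 81 * ε ^ (2 / 5 : ℝ) ≤ 1 := by linarith
      have h4 : q ≤ r / ρ := by
        rw [← hq2, pow_two]
        exact le_mul_of_one_le_left (by linarith) hq1
      calc (81 * ε ^ (2 / 5 : ℝ)) * (q * (r * Y)) ≤ 1 * (r / ρ * (r * Y)) := by
            apply mul_le_mul h3 _ (by positivity) (by norm_num)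
            exact mul_le_mul_of_nonneg_right h4 (by positivity)
        _ = _ := by ring
    calc ε ^ 2 * (r / (Y * M' ^ 2) + 81 * r / M') ≤ ε ^ 2 * (r / (Y * M ^ 2) + 81 * r / M) := by
          apply mul_le_mul_of_nonneg_left _ (by positivity)
          exact add_le_add g1 g2
      _ = ε ^ 2 * ((r / ρ) * r * Y * ε ^ (-(4 / 5) : ℝ)) + ε ^ 2 * (81 * (q * r * Y * ε ^ (-(2 / 5) : ℝ))) := by
          rw [g3, g4]
          ring
      _ ≤ ε ^ (6 / 5 : ℝ) * ((r / ρ) * r * Y) + ε ^ (6 / 5 : ℝ) * ((r / ρ) * r * Y) := by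
          rw [g5]
          exact add_le_add le_rfl g6
      _ = _ := by ring
  set J := Yf cd x ρ with hJ
  have hJ0 : 0 < J := Ypos ρ hρ
  have hε65 : ε ^ (119 / 100 : ℝ) = ε ^ (6 / 5 : ℝ) * ε ^ (-(1 / 100) : ℝ) := by
    rw [← Real.rpow_add hε0]
    norm_num
  have hDn : D ≤ 2 ^ n * ρ := hDε.trans (mul_le_mul_of_nonneg_right hn1 hρ.le)
  refine ⟨hmass d hρd hdD, ?_, ?_, ?_⟩
  · intro W hW
    have h1 := hmu ρ le_rfl (hρd.trans hdD) W hW
    rw [div_self hρ.ne', Real.sqrt_one, one_mul] at h1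
    have h2 : ∀ t ∈ Icc W.a W.b, |W.mu| * vf cd t ≤ ε * (1 + 98 * ε) / 4 := by
      intro t ht
      have h3 := (hP2'.2.2.2.1 W).2.2.2.1 t ht
      rw [Gap.mu, abs_mul, abs_of_nonneg (Real.sqrt_nonneg 5)]
      have h4 := hPar.2.2
      have h5 : 0 ≤ Real.sqrt 5 := Real.sqrt_nonneg 5
      nlinarith
    have hmupos : 0 < |W.mu| := by
      by_contra hc
      have h0 : |W.mu| = 0 := le_antisymm (not_lt.mp hc) (abs_nonneg _)
      rw [h0, zero_mul] at h1
      have : 0 < ε ^ (2 / 5 : ℝ) := by positivity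
      linarith
    have h3 : ∀ t ∈ Icc W.a W.b, vf cd t ≤ 13 / 50 * ε ^ (3 / 5 : ℝ) * J := by
      intro t ht
      have h4 := h2 t ht
      have h5 : ε ^ (2 / 5 : ℝ) * vf cd t ≤ J * (ε * (1 + 98 * ε) / 4) := by
        calc ε ^ (2 / 5 : ℝ) * vf cd t ≤ |W.mu| * J * vf cd t :=
              mul_le_mul_of_nonneg_right h1 (vf_nonneg cd t)
          _ = J * (|W.mu| * vf cd t) := by ring
          _ ≤ _ := mul_le_mul_of_nonneg_left h4 hJ0.le
      have h6 : ε = ε ^ (2 / 5 : ℝ) * ε ^ (3 / 5 : ℝ) := by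
        rw [← Real.rpow_add hε0]
        norm_num
      have h7 : J * (ε * (1 + 98 * ε) / 4) ≤ J * (13 / 50 * ε) := by
        apply mul_le_mul_of_nonneg_left _ hJ0.le
        nlinarith
      have h8 : ε ^ (2 / 5 : ℝ) * vf cd t ≤ ε ^ (2 / 5 : ℝ) * (13 / 50 * ε ^ (3 / 5 : ℝ) * J) := by
        calc ε ^ (2 / 5 : ℝ) * vf cd t ≤ J * (13 / 50 * ε) := h5.trans h7
          _ = J * (13 / 50 * (ε ^ (2 / 5 : ℝ) * ε ^ (3 / 5 : ℝ))) := by rw [← h6]
          _ = _ := by ring
      exact le_of_mul_le_mul_left h8 (by positivity)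
    have h4 := (hQ1 Hm Hp C cd hHm W x ρ (13 / 50 * ε ^ (3 / 5 : ℝ) * J) hρ hW h3 (by nlinarith)).1
    have h5 : W.s * J ≤ (3 * ε ^ (3 / 5 : ℝ) * ρ) * J := by
      refine h4.trans ?_
      have : 0 ≤ ε ^ (3 / 5 : ℝ) * ρ * J := by positivity
      nlinarith
    have h6 := le_of_mul_le_mul_right h5 hJ0
    refine h6.trans ?_
    apply mul_le_mul_of_nonneg_right _ hρ.le
    have h7 : ε ^ (3 / 5 : ℝ) = ε ^ (59 / 100 : ℝ) * ε ^ (1 / 100 : ℝ) := by
      rw [← Real.rpow_add hε0]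
      norm_num
    rw [h7]
    have h8 : 0 < ε ^ (59 / 100 : ℝ) := by positivity
    nlinarith
  · have hB : 0 ≤ 2 * ε ^ (6 / 5 : ℝ) * J / ρ ^ 2 := by positivity
    have h := (shells (vf cd) x ρ D (2 * ε ^ (6 / 5 : ℝ) * J / ρ ^ 2) 3 hρ hB (vf_nonneg cd) (vf_intOn cd)
      (fun r hr hrD => by
        refine (hmass r hr hrD).trans ?_
        have h1 := Ydiv ρ r hρ hr
        have hr0 : 0 < r := lt_of_lt_of_le hρ hr
        calc 2 * ε ^ (6 / 5 : ℝ) * (r / ρ) * r * Yf cd x r ≤ 2 * ε ^ (6 / 5 : ℝ) * (r / ρ) * r * (r / ρ * J) :=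
              mul_le_mul_of_nonneg_left h1 (by positivity)
          _ = _ := by
              field_simp) n D (hρd.trans hdD) le_rfl hDn).2
    refine h.trans ?_
    rw [hε65]
    have h9 : (n : ℝ) * (2 ^ 3 * (2 * ε ^ (6 / 5 : ℝ) * J / ρ ^ 2)) =
        ε ^ (6 / 5 : ℝ) * (16 * n) * J / ρ ^ 2 := by ring
    rw [h9]
    apply div_le_div_of_nonneg_right _ (by positivity)
    apply mul_le_mul_of_nonneg_right _ hJ0.le
    exact mul_le_mul_of_nonneg_left hn2 (by positivity)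
  · have hYD : 0 < Yf cd x D := Ypos D hD0
    have hB : 0 ≤ 2 * ε ^ (6 / 5 : ℝ) * Yf cd x D / ρ := by positivity
    have h := (shells (vf cd) x ρ D (2 * ε ^ (6 / 5 : ℝ) * Yf cd x D / ρ) 2 hρ hB (vf_nonneg cd) (vf_intOn cd)
      (fun r hr hrD => by
        refine (hmass r hr hrD).trans ?_
        have hr0 : 0 < r := lt_of_lt_of_le hρ hr
        have h1 := Ymono r D hr0 hrD
        calc 2 * ε ^ (6 / 5 : ℝ) * (r / ρ) * r * Yf cd x r ≤ 2 * ε ^ (6 / 5 : ℝ) * (r / ρ) * r * Yf cd x D :=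
              mul_le_mul_of_nonneg_left h1 (by positivity)
          _ = _ := by
              field_simp) n D (hρd.trans hdD) le_rfl hDn).2
    refine h.trans ?_
    rw [hε65]
    have h9 : (n : ℝ) * (2 ^ 2 * (2 * ε ^ (6 / 5 : ℝ) * Yf cd x D / ρ)) =
        ε ^ (6 / 5 : ℝ) * (8 * n) * Yf cd x D / ρ := by ring
    rw [h9]
    apply div_le_div_of_nonneg_right _ hρ.le
    apply mul_le_mul_of_nonneg_right _ hYD.le
    apply mul_le_mul_of_nonneg_left _ (by positivity)
    have : (0 : ℝ) ≤ n := Nat.cast_nonneg n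
    linarith

end

end Pool.Agent.Helper39.CV
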