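import Mathlib
import Pool.Agent.Helper36.CV.StmtsQ
import Pool.Agent.Helper39.CV.QC
import Pool.Agent.Helper39.CV.Q8

set_option autoImplicit false
set_option linter.unusedVariables false

namespace Pool.Agent.Helper39.CV

open Complex Filter Topology MeasureTheory Set
open Pool.Agent.Helper36.CV

noncomputable section

theorem sq_pos {z : ℂ} (hz : 0 < z.im) : 0 < (sq z).re ∧ 0 < (sq z).im := by
  have hz0 : z ≠ 0 := by
    intro h
    rw [h] at hz
    simp at hz
  have h1 : sq z = Complex.exp (Complex.log z * (1 / 2)) := by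
    rw [sq, Complex.cpow_def_of_ne_zero hz0]
  have h2 : (Complex.log z * (1 / 2)).im = z.arg / 2 := by
    rw [show Complex.log z * (1 / 2) = Complex.log z / 2 by ring]
    simp [Complex.log_im]
  have h3 : 0 < z.arg := by
    have h4 := Complex.arg_nonneg_iff.mpr hz.le
    rcases h4.lt_or_eq with h | h
    · exact h
    · exfalso
      have := (Complex.arg_eq_zero_iff.mp h.symm).2
      linarith
  have h4 : z.arg ≤ Real.pi := Complex.arg_le_pi z
  have h4' : z.arg ≠ Real.pi := by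
    intro h
    have := (Complex.arg_eq_pi_iff.mp h).2
    linarith
  have h5 : z.arg < Real.pi := lt_of_le_of_ne h4 h4'
  rw [h1]
  constructor
  · rw [Complex.exp_re, h2]
    apply mul_pos (Real.exp_pos _)
    apply Real.cos_pos_of_mem_Ioo
    constructor <;> linarith [Real.pi_pos]
  · rw [Complex.exp_im, h2]
    apply mul_pos (Real.exp_pos _)
    apply Real.sin_pos_of_pos_of_lt_pi
    · linarith
    · linarith

theorem ne_real_of_im' {z : ℂ} (hz : 0 < z.im) (s : ℝ) : z ≠ (s : ℂ) := by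
  intro h
  rw [h] at hz
  simp at hz

theorem qc_im_pos (a b : ℝ) {z : ℂ} (hz : 0 < z.im) : 0 < (qc a b z).im := by
  have h1 := sq_pos (z := z - a) (by simpa using hz)
  have h2 := sq_pos (z := z - b) (by simpa using hz)
  rw [qc_eq, Complex.mul_im]
  have := mul_pos h1.1 h2.2
  have := mul_pos h1.2 h2.1
  linarith

/-- shape of qc at distance δ from an edge, height δ/2 -/
theorem qc_edge (a b δ x : ℝ) (hab : a < b) (hδ : 0 < δ) (hx : x = b + δ ∨ x = a - δ) :
    2 * (qc a b ((x : ℂ) + ((δ / 2 : ℝ) : ℂ) * I)).im ≤ |(qc a b ((x : ℂ) + ((δ / 2 : ℝ) : ℂ) * I)).re| ∧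
    |(qc a b ((x : ℂ) + ((δ / 2 : ℝ) : ℂ) * I)).re| ≤ 17 / 4 * (qc a b ((x : ℂ) + ((δ / 2 : ℝ) : ℂ) * I)).im := by
  set z : ℂ := (x : ℂ) + ((δ / 2 : ℝ) : ℂ) * I with hz
  have hzim : z.im = δ / 2 := by simp [hz]
  have hzre : z.re = x := by simp [hz]
  have hq := qc_im_pos a b (z := z) (by rw [hzim]; linarith)
  have hsq := qc_mul_self a b z
  set p := (qc a b z).re with hp
  set q := (qc a b z).im with hqd
  have e1 : p * p - q * q = (x - a) * (x - b) - δ / 2 * (δ / 2) := by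
    have := congrArg Complex.re hsq
    simp only [Complex.mul_re, Complex.sub_re, Complex.sub_im, Complex.ofReal_re, Complex.ofReal_im, hzre,
      hzim, sub_zero] at this
    rw [← hp, ← hqd] at this
    exact this
  have e2 : 2 * p * q = δ / 2 * ((x - a) + (x - b)) := by
    have := congrArg Complex.im hsq
    simp only [Complex.mul_im, Complex.sub_re, Complex.sub_im, Complex.ofReal_re, Complex.ofReal_im, hzre,
      hzim, sub_zero] at this
    rw [← hp, ← hqd] at this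
    linarith
  -- reduce to P = |p|
  set P := |p| with hP
  have hP0 : 0 ≤ P := abs_nonneg _
  have hPP : P * P = p * p := abs_mul_abs_self p
  set s := b - a with hs
  have hs0 : 0 < s := by rw [hs]; linarith
  have f1 : P * P - q * q = δ * (s + δ) - δ / 2 * (δ / 2) := by
    rw [hPP, e1]
    rcases hx with h | h <;> rw [h, hs] <;> ring
  have f2 : 2 * P * q = δ / 2 * (s + 2 * δ) := by
    have h1 : |2 * p * q| = 2 * P * q := by
      rw [abs_mul, abs_mul, abs_of_pos hq, abs_two]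
    have h2 : |δ / 2 * ((x - a) + (x - b))| = δ / 2 * (s + 2 * δ) := by
      rw [abs_mul, abs_of_pos (by linarith : 0 < δ / 2)]
      congr 1
      rcases hx with h | h
      · rw [h, abs_of_nonneg (by linarith)]
        rw [hs]
        ring
      · rw [h, abs_of_nonpos (by linarith)]
        rw [hs]
        ring
    rw [← h1, e2, h2]
  constructor
  · by_contra hc
    rw [not_le] at hc
    nlinarith [mul_pos hδ hs0, mul_pos hδ hδ, mul_pos hq hq]
  · by_contra hc
    rw [not_le] at hc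
    nlinarith [mul_pos hδ hs0, mul_pos hδ hδ, mul_pos hq hq]

theorem core_w (g qv : ℂ) (hφ : |g.arg| ≤ 106 / 10000) (hq : 0 < qv.im) (h1 : 2 * qv.im ≤ |qv.re|)
    (h2 : |qv.re| ≤ 17 / 4 * qv.im) :
    ‖g * qv‖ ≤ 5 * (g * qv).im ∧ 19 / 10 * (g * qv).im ≤ |(g * qv).re| := by
  have hG0 : 0 ≤ ‖g‖ := norm_nonneg g
  have hre : g.re = ‖g‖ * Real.cos g.arg := (Complex.norm_mul_cos_arg g).symm
  have him : g.im = ‖g‖ * Real.sin g.arg := (Complex.norm_mul_sin_arg g).symm
  have hsq : g.arg ^ 2 ≤ (106 / 10000) ^ 2 := by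
    rw [← sq_abs]
    exact pow_le_pow_left₀ (abs_nonneg _) hφ 2
  have hc1 : 9999 / 10000 ≤ Real.cos g.arg := by
    have := Real.one_sub_sq_div_two_le_cos (x := g.arg)
    linarith
  have hc2 : Real.cos g.arg ≤ 1 := Real.cos_le_one _
  have hs : |Real.sin g.arg| ≤ 106 / 10000 := by
    refine le_trans ?_ hφ
    exact Real.abs_sin_le_abs
  set G := ‖g‖ with hG
  set p := qv.re with hp
  set q := qv.im with hqd
  have ga : 9999 / 10000 * G ≤ g.re := by
    rw [hre]
    nlinarith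
  have gb : g.re ≤ G := by
    rw [hre]
    nlinarith
  have gc : |g.im| ≤ 106 / 10000 * G := by
    rw [him, abs_mul, abs_of_nonneg hG0]
    nlinarith
  have hP0 : 0 ≤ |p| := abs_nonneg p
  have hipb : |g.im * p| ≤ 106 / 10000 * G * |p| := by
    rw [abs_mul]
    exact mul_le_mul_of_nonneg_right gc hP0
  have hiqb : |g.im * q| ≤ 106 / 10000 * G * q := by
    rw [abs_mul, abs_of_pos hq]
    exact mul_le_mul_of_nonneg_right gc hq.le
  have hwim : (g * qv).im = g.re * q + g.im * p := by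
    rw [Complex.mul_im]
  have hwre : (g * qv).re = g.re * p - g.im * q := by
    rw [Complex.mul_re]
  have hGq : 0 ≤ G * q := mul_nonneg hG0 hq.le
  have hGp1 : 2 * (G * q) ≤ G * |p| := by nlinarith
  have hGp2 : G * |p| ≤ 17 / 4 * (G * q) := by nlinarith
  have w1 : 95 / 100 * (G * q) ≤ (g * qv).im := by
    rw [hwim]
    have a1 : 9999 / 10000 * G * q ≤ g.re * q := mul_le_mul_of_nonneg_right ga hq.le
    have a2 := (abs_le.mp hipb).1
    nlinarith
  have w2 : (g * qv).im ≤ G * q + 106 / 10000 * (G * |p|) := by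
    rw [hwim]
    have a1 : g.re * q ≤ G * q := mul_le_mul_of_nonneg_right gb hq.le
    have a2 := (abs_le.mp hipb).2
    nlinarith
  have w3 : 9999 / 10000 * (G * |p|) - 106 / 10000 * (G * q) ≤ |(g * qv).re| := by
    rw [hwre]
    have a1 : |g.re * p| - |g.im * q| ≤ |g.re * p - g.im * q| := abs_sub_abs_le_abs_sub _ _
    have a2 : 9999 / 10000 * (G * |p|) ≤ |g.re * p| := by
      rw [abs_mul]
      have : 9999 / 10000 * G ≤ |g.re| := ga.trans (le_abs_self _)
      nlinarith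
    linarith
  constructor
  · have hn : ‖qv‖ ≤ 437 / 100 * q := by
      have h3 : ‖qv‖ ^ 2 = p ^ 2 + q ^ 2 := by
        rw [Complex.sq_norm, Complex.normSq_apply]
        ring
      have h4 : p ^ 2 ≤ (17 / 4 * q) ^ 2 := by
        rw [← sq_abs]
        exact pow_le_pow_left₀ hP0 h2 2
      have h5 : ‖qv‖ ^ 2 ≤ (437 / 100 * q) ^ 2 := by
        rw [h3]
        nlinarith
      exact le_of_sq_le_sq h5 (by positivity)
    rw [norm_mul]
    calc G * ‖qv‖ ≤ G * (437 / 100 * q) := mul_le_mul_of_nonneg_left hn hG0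
      _ ≤ 5 * (95 / 100 * (G * q)) := by nlinarith
      _ ≤ _ := by linarith
  · linarith

variable {Hm Hp : ℝ} {C : Set ℝ}

/-- data of a window, from Q4 and P2 -/
theorem q3_input (hP2 : ST_P2) (hQ4 : ST_Q4) {ε : ℝ} (cd : CD Hm Hp C) (hPar : Par ε Hm Hp)
    (hε : ε ≤ 1 / 10 ^ 5) (V : Gap cd) (R : ℝ) (hLW : V.LW R) :
    (∀ t ∈ Icc V.a V.b, Nf cd t = V.N) ∧ (∀ t : ℝ, Nf cd t = V.N → t ∈ Icc V.a V.b) ∧
    (∀ t : ℝ, |t - (V.a + V.b) / 2| ≤ R → t ∉ Icc V.a V.b → vf cd t ≤ 3 * ε * |Nf cd t - V.N|) := by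
  refine ⟨fun t ht => V.lab t ht, (hP2 Hm Hp C cd hPar.2.1).2.2.2.2.2.2.1 V, fun t ht hn => ?_⟩
  exact ((hQ4 ε Hm Hp C cd hPar hε).2.2.2 V t (hLW t ht)).2.2.1 hn

theorem Q5core (hP1 : ST_P1) (hP2 : ST_P2) (hQ2 : ST_Q2) (hQ3 : ST_Q3) (hQ4 : ST_Q4) :
    ∃ K ε0 : ℝ, 1 ≤ K ∧ 0 < ε0 ∧ ∀ (ε Hm Hp : ℝ) (C : Set ℝ) (cd : CD Hm Hp C), Par ε Hm Hp → ε ≤ ε0 →
    ∀ (V : Gap cd) (R δ x : ℝ), 1000 ≤ |V.mu| → V.LW R → 0 < δ → V.s / 2 + 2 * δ ≤ R / 100 →
    (x = V.b + δ ∨ x = V.a - δ) →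
    ∫ t in Icc (x - δ / 2) (x + δ / 2), vf cd t / |V.q t| ≤
      K * ε ^ 2 * δ * ‖V.g ((x : ℂ) + (δ : ℂ) * I)‖ := by
  obtain ⟨K3, hK3, hq3⟩ := hQ3
  refine ⟨80000 * Real.exp K3, 1 / 10 ^ 5, ?_, by norm_num, ?_⟩
  · have : 1 ≤ Real.exp K3 := Real.one_le_exp (by linarith)
    linarith
  intro ε Hm Hp C cd hPar hε V R δ x hmu hLW hδ hR hx
  have hε0 : 0 < ε := hPar.1
  have hVlt := V.lt
  have hs0 : 0 < V.s := by
    rw [Gap.s]
    linarith
  have hR0 : 0 < R := by linarith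
  obtain ⟨i1, i2, i3⟩ := q3_input hP2 hQ4 cd hPar hε V R hLW
  obtain ⟨q3a, q3b, q3c⟩ := hq3 ε Hm Hp C cd hPar.2.1 hε0 (by linarith) V.a V.b V.N R hVlt.le
    (by rw [Gap.s] at hR; linarith) hR0 i1 i2 i3
  have hq4 := hQ4 ε Hm Hp C cd hPar hε
  obtain ⟨p11, p12, p13, p14, p15, p16⟩ := hP1 Hm Hp C cd
  set d := δ / 2 with hd
  have hd0 : 0 < d := by rw [hd]; linarith
  have hxc : |x - (V.a + V.b) / 2| = V.s / 2 + δ := by
    rw [Gap.s]
    rcases hx with h | h
    · rw [h, abs_of_nonneg (by linarith)]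
      ring
    · rw [h, abs_of_nonpos (by linarith)]
      ring
  -- the two points
  set z : ℂ := (x : ℂ) + (d : ℂ) * I with hz
  set z' : ℂ := (x : ℂ) + (δ : ℂ) * I with hz'
  have hzim : z.im = d := by simp [hz]
  have hz'im : z'.im = δ := by simp [hz']
  have hzU : z ∈ Uo := by
    show 0 < z.im
    rw [hzim]
    exact hd0
  have hz'U : z' ∈ Uo := by
    show 0 < z'.im
    rw [hz'im]
    exact hδ
  have hdistz : ∀ y : ℝ, 0 ≤ y → ‖((x : ℂ) + (y : ℂ) * I) - (((V.a + V.b) / 2 : ℝ) : ℂ)‖ ≤ V.s / 2 + δ + y := by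
    intro y hy
    have h1 : ((x : ℂ) + (y : ℂ) * I) - (((V.a + V.b) / 2 : ℝ) : ℂ) =
        ((x - (V.a + V.b) / 2 : ℝ) : ℂ) + (y : ℂ) * I := by
      push_cast
      ring
    rw [h1]
    refine (norm_add_le _ _).trans ?_
    rw [Complex.norm_real, Real.norm_eq_abs, hxc, norm_mul, Complex.norm_I, Complex.norm_real,
      Real.norm_eq_abs, abs_of_nonneg hy, mul_one]
  have hdz : ‖z - (((V.a + V.b) / 2 : ℝ) : ℂ)‖ ≤ R / 100 := by
    have := hdistz d hd0.le
    linarith
  have hdz' : ‖z' - (((V.a + V.b) / 2 : ℝ) : ℂ)‖ ≤ R / 100 := by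
    have := hdistz δ hδ.le
    linarith
  -- argument of g
  have harg : |(V.g z).arg| ≤ 106 / 10000 := by
    have h1 := q3a z hzU (by linarith)
    have h2 : ‖z - (((V.a + V.b) / 2 : ℝ) : ℂ)‖ / R ≤ 1 / 100 := by
      rw [div_le_iff₀ hR0]
      linarith
    have h3 : |(V.g z).arg| ≤ 3 * ε + ‖z - (((V.a + V.b) / 2 : ℝ) : ℂ)‖ / R := h1
    linarith
  have hqne : ∀ y : ℂ, 0 < y.im → qc V.a V.b y ≠ 0 := fun y hy =>
    qc_ne_zero (ne_real_of_im' hy _) (ne_real_of_im' hy _)
  have hgq : ∀ y : ℂ, 0 < y.im → V.g y * qc V.a V.b y = cd.f y - V.N := by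
    intro y hy
    rw [Gap.g, div_mul_cancel₀ _ (hqne y hy)]
  have hedge := qc_edge V.a V.b δ x hVlt hδ hx
  have hzz : (x : ℂ) + ((δ / 2 : ℝ) : ℂ) * I = z := by rw [hz, hd]
  rw [hzz] at hedge
  have hqim : 0 < (qc V.a V.b z).im := qc_im_pos _ _ (by rw [hzim]; exact hd0)
  obtain ⟨c1, c2⟩ := core_w (V.g z) (qc V.a V.b z) harg hqim hedge.1 hedge.2
  rw [hgq z (by rw [hzim]; exact hd0)] at c1 c2
  set Y := Yf cd x d with hY
  have hYim : (cd.f z - (V.N : ℂ)).im = Y := by
    rw [Complex.sub_im, Complex.ofReal_im, sub_zero, hY, Yf]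
  have hY0 : 0 < Y := (p13 x d d hd0 le_rfl).1
  rw [hYim] at c1 c2
  have hre : |(cd.f z).re - Nf cd x| ≤ Y := p15 x d hd0
  have hre2 : (cd.f z - (V.N : ℂ)).re = (cd.f z).re - V.N := by
    rw [Complex.sub_re, Complex.ofReal_re]
  have hre3 : |(cd.f z).re - V.N| ≤ 5 * Y := by
    rw [← hre2]
    exact (Complex.abs_re_le_norm _).trans c1
  rw [hre2] at c2
  have hxR : |x - V.c| ≤ R := by
    rw [Gap.c, hxc]
    linarith
  have hNx : 9 / 10 * Y ≤ |Nf cd x - V.N| := by
    have h1 : |(cd.f z).re - V.N| ≤ |(cd.f z).re - Nf cd x| + |Nf cd x - V.N| := abs_sub_le _ _ _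
    linarith
  have hY1 : Y ≤ 1 / 1000 := by
    have h1 := hLW x hxR
    have h2 : 9 / 10 * Y * 1001 ≤ |Nf cd x - V.N| * (|V.mu| + 1) := by
      apply mul_le_mul hNx (by linarith) (by norm_num) (abs_nonneg _)
    linarith
  -- the ball
  have hball : ∀ t ∈ Icc (x - d) (x + d), |t - V.c| ≤ R ∧ t ∉ Icc V.a V.b ∧
      (δ / 2) * (δ / 2 + V.s) ≤ (t - V.a) * (t - V.b) := by
    intro t ht
    have ht1 := ht.1
    have ht2 := ht.2
    rw [Gap.c, Gap.s]
    rw [Gap.s] at hR
    rcases hx with h | h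
    · refine ⟨?_, ?_, ?_⟩
      · rw [abs_le]
        constructor <;> linarith
      · intro h'
        linarith [h'.2]
      · have e1 : δ / 2 ≤ t - V.b := by linarith
        have e2 : δ / 2 + (V.b - V.a) ≤ t - V.a := by linarith
        rw [mul_comm (t - V.a)]
        exact mul_le_mul e1 e2 (by linarith) (by linarith)
    · refine ⟨?_, ?_, ?_⟩
      · rw [abs_le]
        constructor <;> linarith
      · intro h'
        linarith [h'.1]
      · have e1 : δ / 2 ≤ V.a - t := by linarith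
        have e2 : δ / 2 + (V.b - V.a) ≤ V.b - t := by linarith
        have e3 : (t - V.a) * (t - V.b) = (V.a - t) * (V.b - t) := by ring
        rw [e3]
        exact mul_le_mul e1 e2 (by linarith) (by linarith)
  set M := 1 / (180 * Y) with hM
  have hM0 : 0 < M := by positivity
  have hM1 : 1 ≤ M := by
    rw [hM, one_le_div (by positivity)]
    linarith
  have hMY : M * Y = 1 / 180 := by
    rw [hM]
    field_simp
  have hmass := (hQ2 ε Hm Hp C cd hPar (by linarith) x d M ∅ hd0 hM1 MeasurableSet.empty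
    (fun t ht => by
      have := hq4.2.2.2 V t (hLW t (hball t ht).1)
      exact ⟨this.1, this.2.1⟩)
    (fun W hW => by
      right
      set t := max W.a (x - d) with ht
      have ht1 : t ∈ Icc W.a W.b := ⟨le_max_left _ _, max_le W.lt.le hW.2⟩
      have ht2 : t ∈ Icc (x - d) (x + d) := ⟨le_max_right _ _, max_le hW.1 (by linarith)⟩
      obtain ⟨b1, b2, b3⟩ := hball t ht2
      have hne : W ≠ V := by
        intro h
        rw [h] at ht1
        exact b2 ht1
      have h1 := (hq4.2.2.2 V t (hLW t b1)).2.2.2 W hne ht1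
      have h2 : Nf cd t = W.N := W.lab t ht1
      have h3 : |Nf cd t - Nf cd x| ≤ 12 * Y := by
        apply p16 x d t x hd0
        · rw [abs_le]
          constructor <;> linarith [ht2.1, ht2.2]
        · rw [sub_self, abs_zero]
          exact hd0.le
      have h4 : |W.N - V.N| ≤ 18 * Y := by
        rw [← h2]
        have e : Nf cd t - V.N = (Nf cd t - Nf cd x) + (Nf cd x - (cd.f z).re) + ((cd.f z).re - V.N) := by ring
        rw [e]
        have h5 : |Nf cd x - (cd.f z).re| ≤ Y := by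
          rw [abs_sub_comm]
          exact hre
        have h6 := abs_add_le ((Nf cd t - Nf cd x) + (Nf cd x - (cd.f z).re)) ((cd.f z).re - V.N)
        have h7 := abs_add_le (Nf cd t - Nf cd x) (Nf cd x - (cd.f z).re)
        linarith
      rw [hM, div_le_iff₀ (by positivity)]
      have h5 : |W.mu| * |W.N - V.N| ≤ |W.mu| * (18 * Y) := mul_le_mul_of_nonneg_left h4 (abs_nonneg _)
      linarith)
    (by
      rw [hMY]
      linarith)).2
  rw [sdiff_empty] at hmass
  have hmass2 : ∫ t in Icc (x - d) (x + d), vf cd t ≤ 46980 * ε ^ 2 * d * Y := by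
    have e : Yf cd x d = Y := rfl
    rw [e] at hmass
    refine hmass.trans (le_of_eq ?_)
    rw [hM]
    field_simp
    ring
  set Q := Real.sqrt ((δ / 2) * (δ / 2 + V.s)) with hQ
  have hQ0 : 0 < Q := Real.sqrt_pos.mpr (by positivity)
  have hQQ : Q ^ 2 = (δ / 2) * (δ / 2 + V.s) := Real.sq_sqrt (by positivity)
  have hint1 : ∫ t in Icc (x - d) (x + d), vf cd t / |V.q t| ≤ ∫ t in Icc (x - d) (x + d), (1 / Q) * vf cd t := by
    apply integral_mono_of_nonneg
    · exact Eventually.of_forall (fun t => div_nonneg (vf_nonneg cd t) (abs_nonneg _))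
    · exact (vf_intOn cd _ _).const_mul _
    · refine (ae_restrict_mem measurableSet_Icc).mono (fun t ht => ?_)
      have h1 : Q ≤ |V.q t| := by
        have h2 : |V.q t| = Real.sqrt ((t - V.a) * (t - V.b)) := by
          rw [Gap.q, qr]
          split_ifs
          · exact abs_of_nonneg (Real.sqrt_nonneg _)
          · rw [abs_neg, abs_of_nonneg (Real.sqrt_nonneg _)]
        rw [h2]
        exact Real.sqrt_le_sqrt (hball t ht).2.2
      show vf cd t / |V.q t| ≤ (1 / Q) * vf cd t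
      rw [div_eq_mul_one_div, mul_comm]
      exact mul_le_mul_of_nonneg_right (one_div_le_one_div_of_le hQ0 h1) (vf_nonneg cd t)
  rw [integral_const_mul] at hint1
  -- comparison of Y with g
  have hqn : ‖qc V.a V.b z‖ ≤ 3 * Q := by
    have h1 : ‖qc V.a V.b z‖ ^ 2 ≤ (3 * Q) ^ 2 := by
      have h2 : ‖qc V.a V.b z‖ ^ 2 = ‖(z - V.a) * (z - V.b)‖ := by
        rw [← qc_mul_self, norm_mul, pow_two]
      rw [h2, norm_mul]
      have h3 : ∀ y : ℝ, ‖z - (y : ℂ)‖ ≤ |x - y| + δ / 2 := by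
        intro y
        have h4 : z - (y : ℂ) = ((x - y : ℝ) : ℂ) + (d : ℂ) * I := by
          rw [hz]
          push_cast
          ring
        rw [h4]
        refine (norm_add_le _ _).trans ?_
        rw [Complex.norm_real, Real.norm_eq_abs, norm_mul, Complex.norm_I, Complex.norm_real,
          Real.norm_eq_abs, abs_of_pos hd0, mul_one]
      have h5 : ‖z - (V.a : ℂ)‖ * ‖z - (V.b : ℂ)‖ ≤ (|x - V.a| + δ / 2) * (|x - V.b| + δ / 2) :=
        mul_le_mul (h3 _) (h3 _) (norm_nonneg _) (by positivity)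
      refine h5.trans ?_
      have h6 : (|x - V.a| + δ / 2) * (|x - V.b| + δ / 2) = (V.s + 3 / 2 * δ) * (3 / 2 * δ) := by
        rw [Gap.s]
        rcases hx with h | h
        · rw [h, abs_of_nonneg (by linarith), abs_of_nonneg (by linarith)]
          ring
        · rw [h, abs_of_nonpos (by linarith), abs_of_nonpos (by linarith)]
          ring
      rw [h6, mul_pow, hQQ]
      nlinarith [mul_pos hδ hs0, mul_pos hδ hδ]
    exact le_of_sq_le_sq h1 (by positivity)
  have hYg : Y ≤ ‖V.g z‖ * (3 * Q) := by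
    have h1 : Y ≤ ‖cd.f z - (V.N : ℂ)‖ := by
      rw [← hYim]
      exact (le_abs_self _).trans (Complex.abs_im_le_norm _)
    rw [← hgq z (by rw [hzim]; exact hd0), norm_mul] at h1
    exact h1.trans (mul_le_mul_of_nonneg_left hqn (norm_nonneg _))
  -- comparison of the two values of g
  have hgne : ∀ y ∈ Uo, 0 < ‖V.g y‖ := by
    intro y hy
    rw [norm_pos_iff, Gap.g]
    apply div_ne_zero _ (hqne y hy)
    intro h
    have h1 : (cd.f y - (V.N : ℂ)).im = 0 := by rw [h]; simp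
    rw [Complex.sub_im, Complex.ofReal_im, sub_zero] at h1
    have := cd.im_pos y hy
    linarith
  have hgg : ‖V.g z‖ ≤ Real.exp K3 * ‖V.g z'‖ := by
    have h1 := q3b z hzU z' hz'U (by linarith) (by linarith)
    have h2 : ‖z - z'‖ = δ / 2 := by
      have h3 : z - z' = ((-(δ / 2) : ℝ) : ℂ) * I := by
        rw [hz, hz', hd]
        push_cast
        ring
      rw [h3, norm_mul, Complex.norm_I, Complex.norm_real, Real.norm_eq_abs, abs_neg,
        abs_of_pos (by linarith), mul_one]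
    rw [h2, hzim, hz'im, hd] at h1
    have h4 : δ / 2 / (δ / 2) = 1 := div_self (by linarith)
    have h5 : δ / 2 / δ = 1 / 2 := by field_simp
    rw [h4, h5] at h1
    have h6 : Real.log (1 + 1) ≤ 1 := by
      have := Real.log_two_lt_d9
      norm_num
      linarith
    have h7 : Real.log (1 + 1 / 2) ≤ 1 := by
      have := Real.log_le_sub_one_of_pos (x := 1 + 1 / 2) (by norm_num)
      linarith
    have h8 : δ / 2 / R ≤ 1 / 100 := by
      rw [div_le_iff₀ hR0]
      linarith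
    have h9 : K3 * (ε * (1 + Real.log (1 + 1) + Real.log (1 + 1 / 2)) + δ / 2 / R) ≤ K3 * 1 := by
      apply mul_le_mul_of_nonneg_left _ (by linarith)
      have h14 : 1 + Real.log (1 + 1) + Real.log (1 + 1 / 2) ≤ 1 + 1 + 1 :=
        add_le_add (add_le_add le_rfl h6) h7
      have h13 : ε * (1 + Real.log (1 + 1) + Real.log (1 + 1 / 2)) ≤ ε * (1 + 1 + 1) :=
        mul_le_mul_of_nonneg_left h14 hε0.le
      have h15 : ε * (1 + 1 + 1) ≤ 1 / 100 := by linarith only [hε]
      linarith only [h13, h15, h8]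
    have h10 : Real.log ‖V.g z‖ - Real.log ‖V.g z'‖ ≤ K3 := by
      have := (abs_le.mp h1).2
      have h11 : Real.log ‖V.g z‖ - Real.log ‖V.g z'‖ ≤
        K3 * (ε * (1 + Real.log (1 + 1) + Real.log (1 + 1 / 2)) + δ / 2 / R) := this
      linarith
    have h12 : Real.log ‖V.g z‖ ≤ Real.log (Real.exp K3 * ‖V.g z'‖) := by
      rw [Real.log_mul (Real.exp_pos _).ne' (hgne z' hz'U).ne', Real.log_exp]
      linarith
    exact (Real.log_le_log_iff (hgne z hzU) (mul_pos (Real.exp_pos _) (hgne z' hz'U))).mp h12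
  calc ∫ t in Icc (x - d) (x + d), vf cd t / |V.q t| ≤ 1 / Q * ∫ t in Icc (x - d) (x + d), vf cd t := hint1
    _ ≤ 1 / Q * (46980 * ε ^ 2 * d * Y) := mul_le_mul_of_nonneg_left hmass2 (by positivity)
    _ ≤ 1 / Q * (46980 * ε ^ 2 * d * (‖V.g z‖ * (3 * Q))) := by
        apply mul_le_mul_of_nonneg_left _ (by positivity)
        exact mul_le_mul_of_nonneg_left hYg (by positivity)
    _ = 70470 * ε ^ 2 * δ * ‖V.g z‖ := by
        rw [hd]
        field_simp
        ring
    _ ≤ 70470 * ε ^ 2 * δ * (Real.exp K3 * ‖V.g z'‖) := mul_le_mul_of_nonneg_left hgg (by positivity)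
    _ ≤ 80000 * Real.exp K3 * ε ^ 2 * δ * ‖V.g z'‖ := by
        have : 0 ≤ ε ^ 2 * δ * (Real.exp K3 * ‖V.g z'‖) := by positivity
        nlinarith

theorem Q5 (hP1 : ST_P1) (hP2 : ST_P2) (hQ2 : ST_Q2) (hQ3 : ST_Q3) (hQ4 : ST_Q4) : ST_Q5 := by
  obtain ⟨K, ε0, hK, hε0, h⟩ := Q5core hP1 hP2 hQ2 hQ3 hQ4
  refine ⟨K, ε0, hK, hε0, ?_⟩
  intro ε Hm Hp C cd hPar hε V R δ hmu hLW hδ hR
  constructor
  · have h1 := h ε Hm Hp C cd hPar hε V R δ (V.b + δ) hmu hLW hδ hR (Or.inl rfl)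
    have e1 : V.b + δ - δ / 2 = V.b + δ / 2 := by ring
    have e2 : V.b + δ + δ / 2 = V.b + 3 * δ / 2 := by ring
    rw [e1, e2] at h1
    exact h1
  · have h1 := h ε Hm Hp C cd hPar hε V R δ (V.a - δ) hmu hLW hδ hR (Or.inr rfl)
    have e1 : V.a - δ - δ / 2 = V.a - 3 * δ / 2 := by ring
    have e2 : V.a - δ + δ / 2 = V.a - δ / 2 := by ring
    rw [e1, e2] at h1
    exact h1

end

end Pool.Agent.Helper39.CV
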