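import Mathlib
import Pool.Agent.Helper36.CV.StmtsQ
import Pool.Agent.Helper39.CV.Q5

set_option autoImplicit false
set_option linter.unusedVariables false

namespace Pool.Agent.Helper39.CV

open Complex Filter Topology MeasureTheory Set
open Pool.Agent.Helper36.CV

noncomputable section

/-! a singular integral -/

theorem half_int (y L : ℝ) (hL : 0 ≤ L) :
    IntegrableOn (fun t : ℝ => |t - y| ^ (-(1 / 2) : ℝ)) (Icc (y - L) (y + L)) ∧
    ∫ t in Icc (y - L) (y + L), |t - y| ^ (-(1 / 2) : ℝ) ≤ 4 * Real.sqrt L := by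
  have h0 : IntervalIntegrable (fun u : ℝ => |u| ^ (-(1 / 2) : ℝ)) volume 0 L := by
    have h1 : IntervalIntegrable (fun u : ℝ => u ^ (-(1 / 2) : ℝ)) volume 0 L :=
      intervalIntegral.intervalIntegrable_rpow' (by norm_num)
    refine h1.congr (fun u hu => ?_)
    rw [uIoc_of_le hL] at hu
    show u ^ (-(1 / 2) : ℝ) = |u| ^ (-(1 / 2) : ℝ)
    rw [abs_of_pos hu.1]
  have h0' : IntervalIntegrable (fun u : ℝ => |u| ^ (-(1 / 2) : ℝ)) volume (-L) 0 := by
    have h1 := (IntervalIntegrable.iff_comp_neg (f := fun u : ℝ => |u| ^ (-(1 / 2) : ℝ))).mp h0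
    simp only [abs_neg, neg_zero] at h1
    exact h1.symm
  have h2 : IntervalIntegrable (fun u : ℝ => |u| ^ (-(1 / 2) : ℝ)) volume (-L) L := h0'.trans h0
  have v0 : ∫ u in (0 : ℝ)..L, |u| ^ (-(1 / 2) : ℝ) = 2 * Real.sqrt L := by
    have h1 : ∫ u in (0 : ℝ)..L, |u| ^ (-(1 / 2) : ℝ) = ∫ u in (0 : ℝ)..L, u ^ (-(1 / 2) : ℝ) := by
      apply intervalIntegral.integral_congr_ae
      refine Eventually.of_forall (fun u hu => ?_)
      rw [uIoc_of_le hL] at hu
      rw [abs_of_pos hu.1]
    rw [h1, integral_rpow (Or.inl (by norm_num))]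
    rw [Real.sqrt_eq_rpow, show (-(1 / 2) + 1 : ℝ) = 1 / 2 by norm_num, Real.zero_rpow (by norm_num)]
    ring
  have v1 : ∫ u in (-L)..(0 : ℝ), |u| ^ (-(1 / 2) : ℝ) = 2 * Real.sqrt L := by
    have h1 := intervalIntegral.integral_comp_neg (a := -L) (b := 0) (fun u : ℝ => |u| ^ (-(1 / 2) : ℝ))
    simp only [abs_neg, neg_zero, neg_neg] at h1
    rw [h1, v0]
  have v2 : ∫ u in (-L)..L, |u| ^ (-(1 / 2) : ℝ) = 4 * Real.sqrt L := by
    rw [← intervalIntegral.integral_add_adjacent_intervals h0' h0, v0, v1]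
    ring
  have h3 : IntervalIntegrable (fun t : ℝ => |t - y| ^ (-(1 / 2) : ℝ)) volume (y - L) (y + L) := by
    have h4 := h2.comp_sub_right y
    have e1 : -L + y = y - L := by ring
    have e2 : L + y = y + L := by ring
    rw [e1, e2] at h4
    exact h4
  have hle : y - L ≤ y + L := by linarith
  have v3 : ∫ t in (y - L)..(y + L), |t - y| ^ (-(1 / 2) : ℝ) = 4 * Real.sqrt L := by
    have h4 := intervalIntegral.integral_comp_sub_right (a := y - L) (b := y + L)
      (fun u : ℝ => |u| ^ (-(1 / 2) : ℝ)) y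
    have e1 : y - L - y = -L := by ring
    have e2 : y + L - y = L := by ring
    rw [e1, e2, v2] at h4
    exact h4
  constructor
  · rw [intervalIntegrable_iff_integrableOn_Ioc_of_le hle] at h3
    rwa [integrableOn_Icc_iff_integrableOn_Ioc]
  · rw [integral_Icc_eq_integral_Ioc, ← intervalIntegral.integral_of_le hle, v3]

theorem abs_q {Hm Hp : ℝ} {C : Set ℝ} {cd : CD Hm Hp C} (V : Gap cd) (t : ℝ) :
    |V.q t| = Real.sqrt ((t - V.a) * (t - V.b)) := by
  rw [Gap.q, qr]
  split_ifs
  · exact abs_of_nonneg (Real.sqrt_nonneg _)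
  · rw [abs_neg, abs_of_nonneg (Real.sqrt_nonneg _)]

theorem q_meas {Hm Hp : ℝ} {C : Set ℝ} {cd : CD Hm Hp C} (V : Gap cd) :
    Measurable (fun t => |V.q t|) := by
  have : (fun t => |V.q t|) = fun t => Real.sqrt ((t - V.a) * (t - V.b)) := by
    funext t
    exact abs_q V t
  rw [this]
  fun_prop

variable {Hm Hp : ℝ} {C : Set ℝ}

theorem vq_intOn (hP3 : ST_P3) (cd : CD Hm Hp C) (V : Gap cd) (r : ℝ) (hr : 0 ≤ r) :
    IntegrableOn (fun t => vf cd t / |V.q t|) (Icc (V.c - r) (V.c + r)) := by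
  have hVlt := V.lt
  have hc : V.c ∈ Ioo V.a V.b := by
    rw [Gap.c]
    constructor <;> linarith
  have h1 := (((hP3 Hm Hp C cd V.a V.b V.N hVlt (fun t ht => V.lab t ht)).1) V.c hc).1
  refine Integrable.mono' ((h1.const_mul r).integrableOn) ?_ ?_
  · exact ((vf_cont cd).measurable.div (q_meas V)).aestronglyMeasurable
  · refine (ae_restrict_mem measurableSet_Icc).mono (fun t ht => ?_)
    have h2 : |t - V.c| ≤ r := by
      rw [abs_le]
      constructor <;> linarith [ht.1, ht.2]
    rw [Real.norm_eq_abs, abs_of_nonneg (div_nonneg (vf_nonneg cd t) (abs_nonneg _))]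
    show vf cd t / |V.q t| ≤ r * (vf cd t / (|qr V.a V.b t| * |t - V.c|))
    have e : |qr V.a V.b t| = |V.q t| := rfl
    rw [e]
    by_cases h0 : |V.q t| = 0
    · rw [h0]
      simp
    · have hq0 : 0 < |V.q t| := lt_of_le_of_ne (abs_nonneg _) (Ne.symm h0)
      by_cases h3 : t = V.c
      · exfalso
        apply h0
        rw [h3]
        have : V.q V.c = 0 := qr_in hc
        rw [this, abs_zero]
      · have h4 : 0 < |t - V.c| := abs_pos.mpr (sub_ne_zero.mpr h3)
        have h5 : vf cd t / |V.q t| = |t - V.c| * (vf cd t / (|V.q t| * |t - V.c|)) := by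
          field_simp
        rw [h5]
        apply mul_le_mul_of_nonneg_right h2
        exact div_nonneg (vf_nonneg cd t) (by positivity)

theorem qc_center (a b r : ℝ) (hab : a < b) (hr : 0 < r) :
    (qc a b ((((a + b) / 2 : ℝ) : ℂ) + (r : ℂ) * I)).re = 0 ∧
    r ≤ (qc a b ((((a + b) / 2 : ℝ) : ℂ) + (r : ℂ) * I)).im := by
  set z : ℂ := (((a + b) / 2 : ℝ) : ℂ) + (r : ℂ) * I with hz
  have hzim : z.im = r := by simp [hz]
  have hzre : z.re = (a + b) / 2 := by
    rw [hz, Complex.add_re, Complex.ofReal_re, Complex.mul_re, Complex.ofReal_re, Complex.I_re, Complex.ofReal_im,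
      Complex.I_im]
    ring
  have hq := qc_im_pos a b (z := z) (by rw [hzim]; exact hr)
  have hsq := qc_mul_self a b z
  set p := (qc a b z).re with hp
  set q := (qc a b z).im with hqd
  have e1 : p * p - q * q = ((a + b) / 2 - a) * ((a + b) / 2 - b) - r * r := by
    have := congrArg Complex.re hsq
    simp only [Complex.mul_re, Complex.sub_re, Complex.sub_im, Complex.ofReal_re, Complex.ofReal_im, hzre,
      hzim, sub_zero] at this
    rw [← hp, ← hqd] at this
    exact this
  have e2 : p * q + q * p = ((a + b) / 2 - a) * r + r * ((a + b) / 2 - b) := by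
    have := congrArg Complex.im hsq
    simp only [Complex.mul_im, Complex.sub_re, Complex.sub_im, Complex.ofReal_re, Complex.ofReal_im, hzre,
      hzim, sub_zero] at this
    rw [← hp, ← hqd] at this
    exact this
  have e3 : p * q = 0 := by linarith
  have hp0 : p = 0 := by
    rcases mul_eq_zero.mp e3 with h | h
    · exact h
    · linarith
  refine ⟨hp0, ?_⟩
  rw [hp0] at e1
  by_contra hc
  rw [not_le] at hc
  nlinarith [sq_nonneg (b - a)]

theorem Q6B (hP1 : ST_P1) (hP2 : ST_P2) (hP3 : ST_P3) (hQ3 : ST_Q3) (hQ4 : ST_Q4) :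
    ∃ K : ℝ, 1 ≤ K ∧ ∀ (ε Hm Hp : ℝ) (C : Set ℝ) (cd : CD Hm Hp C), Par ε Hm Hp → ε ≤ 1 / 10 ^ 5 →
    ∀ (V : Gap cd), 1000 ≤ |V.mu| → ∀ r : ℝ, 0 < r → r ≤ V.s / (4 * ε) → V.kk * r ≤ K * Yf cd V.c r := by
  obtain ⟨K3, hK3, hq3⟩ := hQ3
  have hexp : 1 ≤ Real.exp K3 := Real.one_le_exp (by linarith)
  refine ⟨5 * Real.exp K3, by linarith, ?_⟩
  intro ε Hm Hp C cd hPar hε V hmu
  have hε0 : 0 < ε := hPar.1
  have hVlt := V.lt
  have hs0 : 0 < V.s := by
    rw [Gap.s]
    linarith
  have hq4 := hQ4 ε Hm Hp C cd hPar hε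
  set R := V.s / (4 * ε) with hR
  have hR0 : 0 < R := by positivity
  have hsR : V.s ≤ R := by
    rw [hR, le_div_iff₀ (by positivity)]
    nlinarith
  have hLW : V.LW R := hq4.2.2.1 V hmu
  obtain ⟨i1, i2, i3⟩ := q3_input hP2 hQ4 cd hPar hε V R hLW
  obtain ⟨q3a, q3b, q3c⟩ := hq3 ε Hm Hp C cd hPar.2.1 hε0 (by linarith) V.a V.b V.N R hVlt.le
    (by rw [Gap.s] at hsR; exact hsR) hR0 i1 i2 i3
  obtain ⟨p11, p12, p13, p14, p15, p16⟩ := hP1 Hm Hp C cd
  have hcc : V.c ∈ Ioo V.a V.b := by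
    rw [Gap.c]
    constructor <;> linarith
  have hkk0 : 0 < V.kk := (((hP3 Hm Hp C cd V.a V.b V.N hVlt (fun t ht => V.lab t ht)).1) V.c hcc).2.1
  have main : ∀ r : ℝ, 0 < r → r ≤ R / 4 → V.kk * r ≤ 5 / 4 * Real.exp K3 * Yf cd V.c r := by
    intro r hr hrR
    set z : ℂ := (((V.a + V.b) / 2 : ℝ) : ℂ) + (r : ℂ) * I with hz
    have hzim : z.im = r := by simp [hz]
    have hzU : z ∈ Uo := by
      show 0 < z.im
      rw [hzim]
      exact hr
    have hdz : ‖z - (((V.a + V.b) / 2 : ℝ) : ℂ)‖ = r := by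
      have h1 : z - (((V.a + V.b) / 2 : ℝ) : ℂ) = (r : ℂ) * I := by
        rw [hz]
        ring
      rw [h1, norm_mul, Complex.norm_I, Complex.norm_real, Real.norm_eq_abs, abs_of_pos hr, mul_one]
    have h1 : |(V.g z).arg| ≤ 3 * ε + ‖z - (((V.a + V.b) / 2 : ℝ) : ℂ)‖ / R := q3a z hzU (by rw [hdz]; exact hrR)
    rw [hdz] at h1
    have hrR' : r / R ≤ 1 / 4 := by
      rw [div_le_iff₀ hR0]
      linarith
    have harg : |(V.g z).arg| ≤ 26 / 100 := by linarith
    have hcos : 9 / 10 ≤ Real.cos (V.g z).arg := by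
      have h2 := Real.one_sub_sq_div_two_le_cos (x := (V.g z).arg)
      have h3 : (V.g z).arg ^ 2 ≤ (26 / 100) ^ 2 := by
        rw [← sq_abs]
        exact pow_le_pow_left₀ (abs_nonneg _) harg 2
      linarith
    have hgre : 9 / 10 * ‖V.g z‖ ≤ (V.g z).re := by
      rw [← Complex.norm_mul_cos_arg]
      rw [mul_comm]
      exact mul_le_mul_of_nonneg_left hcos (norm_nonneg _)
    obtain ⟨c1, c2⟩ := qc_center V.a V.b r hVlt hr
    have hqne : qc V.a V.b z ≠ 0 := qc_ne_zero (ne_real_of_im' (by rw [hzim]; exact hr) _)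
      (ne_real_of_im' (by rw [hzim]; exact hr) _)
    have hgq : V.g z * qc V.a V.b z = cd.f z - V.N := by
      rw [Gap.g, div_mul_cancel₀ _ hqne]
    have hY : Yf cd V.c r = (V.g z).re * (qc V.a V.b z).im := by
      have h2 := congrArg Complex.im hgq
      rw [Complex.mul_im, Complex.sub_im, Complex.ofReal_im, sub_zero] at h2
      rw [← hz] at c1
      rw [c1, mul_zero, add_zero] at h2
      rw [h2, Yf, Gap.c]
    have hY1 : 9 / 10 * ‖V.g z‖ * r ≤ Yf cd V.c r := by
      rw [hY]
      apply mul_le_mul hgre _ hr.le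
      · exact le_trans (by positivity) hgre
      · rw [← hz] at c2
        exact c2
    have hg0 : 0 < ‖V.g z‖ := by
      rw [norm_pos_iff, Gap.g]
      apply div_ne_zero _ hqne
      intro h
      have h1 : (cd.f z - (V.N : ℂ)).im = 0 := by rw [h]; simp
      rw [Complex.sub_im, Complex.ofReal_im, sub_zero] at h1
      have := cd.im_pos z hzU
      linarith
    have h3 := q3c hVlt z hzU (by rw [hdz]; exact hrR)
    rw [hdz, hzim, div_self hr.ne'] at h3
    have hk : KI cd V.a V.b ((V.a + V.b) / 2) = V.kk := rfl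
    rw [hk] at h3
    have h4 : Real.log (1 + 1) ≤ 1 := by
      have := Real.log_two_lt_d9
      norm_num
      linarith
    have hbs : V.b - V.a = V.s := rfl
    rw [hbs] at h3
    have h5 : Real.log (1 + r / V.s) ≤ r / V.s := by
      have := Real.log_le_sub_one_of_pos (x := 1 + r / V.s) (by positivity)
      linarith
    have h6 : ε * (r / V.s) ≤ 1 / 16 := by
      rw [← mul_div_assoc, div_le_iff₀ hs0]
      have : r * (4 * ε) ≤ V.s / 4 := by
        have h7 : r ≤ V.s / (4 * ε) / 4 := hrR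
        rw [div_div, le_div_iff₀ (by positivity)] at h7
        linarith
      linarith
    have h7 : ε * (1 + Real.log (1 + 1) + Real.log (1 + r / V.s)) + r / R ≤ 1 := by
      have h8 : ε * (1 + Real.log (1 + 1) + Real.log (1 + r / V.s)) ≤ ε * (1 + 1 + r / V.s) := by
        apply mul_le_mul_of_nonneg_left _ hε0.le
        exact add_le_add (add_le_add le_rfl h4) h5
      have h9 : ε * (1 + 1 + r / V.s) = 2 * ε + ε * (r / V.s) := by ring
      linarith
    have h8 : K3 * (ε * (1 + Real.log (1 + 1) + Real.log (1 + r / V.s)) + r / R) ≤ K3 * 1 :=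
      mul_le_mul_of_nonneg_left h7 (by linarith)
    have h9 : Real.log V.kk ≤ Real.log (Real.exp K3 * ‖V.g z‖) := by
      rw [Real.log_mul (Real.exp_pos _).ne' hg0.ne', Real.log_exp]
      have h10 := (abs_le.mp h3).1
      have h11 : -(K3 * (ε * (1 + Real.log (1 + 1) + Real.log (1 + r / V.s)) + r / R)) ≤
        Real.log ‖V.g z‖ - Real.log V.kk := h10
      linarith
    have h10 : V.kk ≤ Real.exp K3 * ‖V.g z‖ :=
      (Real.log_le_log_iff hkk0 (mul_pos (Real.exp_pos _) hg0)).mp h9
    calc V.kk * r ≤ Real.exp K3 * ‖V.g z‖ * r := mul_le_mul_of_nonneg_right h10 hr.le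
      _ = 10 / 9 * Real.exp K3 * (9 / 10 * ‖V.g z‖ * r) := by ring
      _ ≤ 10 / 9 * Real.exp K3 * Yf cd V.c r := mul_le_mul_of_nonneg_left hY1 (by positivity)
      _ ≤ _ := by
        have : 0 ≤ Real.exp K3 * Yf cd V.c r := mul_nonneg (Real.exp_pos _).le (p13 V.c r r hr le_rfl).1.le
        nlinarith
  intro r hr hrR
  rcases le_or_gt r (R / 4) with h | h
  · refine (main r hr h).trans ?_
    have : 0 ≤ Real.exp K3 * Yf cd V.c r := mul_nonneg (Real.exp_pos _).le (p13 V.c r r hr le_rfl).1.le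
    nlinarith
  · have h1 := main (R / 4) (by positivity) le_rfl
    have h2 := (p13 V.c (R / 4) r (by positivity) h.le).2.1
    have h3 : V.kk * r ≤ 4 * (V.kk * (R / 4)) := by nlinarith
    calc V.kk * r ≤ 4 * (V.kk * (R / 4)) := h3
      _ ≤ 4 * (5 / 4 * Real.exp K3 * Yf cd V.c (R / 4)) := by linarith
      _ ≤ 4 * (5 / 4 * Real.exp K3 * Yf cd V.c r) := by
          have := mul_le_mul_of_nonneg_left h2 (by positivity : 0 ≤ 5 / 4 * Real.exp K3)
          linarith
      _ = _ := by ring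

/-- nonnegative function on a shell -/
theorem shell_split (f : ℝ → ℝ) (c r δ : ℝ) (h1 : δ ≤ r) (hf : ∀ t, 0 ≤ f t)
    (hi : IntegrableOn f (Icc (c - r) (c + r))) :
    ∫ t in Icc (c - r) (c + r), f t = (∫ t in Icc (c - δ) (c + δ), f t) +
      ∫ t in Icc (c - r) (c + r) \ Icc (c - δ) (c + δ), f t := by
  have hsub : Icc (c - δ) (c + δ) ⊆ Icc (c - r) (c + r) := Icc_subset_Icc (by linarith) (by linarith)
  have h2 : Icc (c - r) (c + r) = Icc (c - δ) (c + δ) ∪ (Icc (c - r) (c + r) \ Icc (c - δ) (c + δ)) := by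
    rw [union_sdiff_cancel hsub]
  have h3 : Disjoint (Icc (c - δ) (c + δ)) (Icc (c - r) (c + r) \ Icc (c - δ) (c + δ)) := disjoint_sdiff_right
  have h4 : IntegrableOn f (Icc (c - δ) (c + δ)) := hi.mono_set hsub
  have h5 : IntegrableOn f (Icc (c - r) (c + r) \ Icc (c - δ) (c + δ)) := hi.mono_set sdiff_subset
  have h6 := setIntegral_union h3 (measurableSet_Icc.diff measurableSet_Icc) h4 h5
  rw [← h2] at h6
  exact h6

theorem Q6A (hP1 : ST_P1) (hP2 : ST_P2) (hP3 : ST_P3) (hQ2 : ST_Q2) (hQ4 : ST_Q4) (KB : ℝ) (hKB : 1 ≤ KB)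
    (hB : ∀ (ε Hm Hp : ℝ) (C : Set ℝ) (cd : CD Hm Hp C), Par ε Hm Hp → ε ≤ 1 / 10 ^ 5 →
    ∀ (V : Gap cd), 1000 ≤ |V.mu| → ∀ r : ℝ, 0 < r → r ≤ V.s / (4 * ε) → V.kk * r ≤ KB * Yf cd V.c r)
    (ε Hm Hp : ℝ) (C : Set ℝ) (cd : CD Hm Hp C) (hPar : Par ε Hm Hp) (hε : ε ≤ 1 / 10 ^ 5)
    (hε2 : ε ≤ 1 / (250 * KB)) (V : Gap cd) (hmu : 1000 ≤ |V.mu|) :
    ∫ t in Icc (V.c - V.s / (4 * ε)) (V.c + V.s / (4 * ε)), vf cd t / |V.q t| ≤ 50000 * KB * ε * V.s * V.kk := by
  have hε0 : 0 < ε := hPar.1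
  have hVlt := V.lt
  have hs0 : 0 < V.s := by
    rw [Gap.s]
    linarith
  have hq4 := hQ4 ε Hm Hp C cd hPar hε
  set R := V.s / (4 * ε) with hR
  have hR0 : 0 < R := by positivity
  have hsR : 2 * V.s ≤ R := by
    rw [hR, le_div_iff₀ (by positivity)]
    nlinarith
  have hLW : V.LW R := hq4.2.2.1 V hmu
  obtain ⟨p11, p12, p13, p14, p15, p16⟩ := hP1 Hm Hp C cd
  have hcc : V.c ∈ Ioo V.a V.b := by
    rw [Gap.c]
    constructor <;> linarith
  set k := V.kk with hk
  have hkk0 : 0 < k := (((hP3 Hm Hp C cd V.a V.b V.N hVlt (fun t ht => V.lab t ht)).1) V.c hcc).2.1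
  set c := V.c with hc
  have hca : V.a = c - V.s / 2 := by
    rw [hc, Gap.c, Gap.s]
    ring
  have hcb : V.b = c + V.s / 2 := by
    rw [hc, Gap.c, Gap.s]
    ring
  have hf0 : ∀ t, 0 ≤ vf cd t / |V.q t| := fun t => div_nonneg (vf_nonneg cd t) (abs_nonneg _)
  have hks : k * V.s ≤ ε / 1000 := by
    have h1 := hq4.2.1 V
    have h2 : 1000 * (k * V.s) ≤ |V.mu| * V.kk * V.s := by
      rw [mul_assoc]
      exact mul_le_mul_of_nonneg_right hmu (by positivity)
    have h3 : ε / 2 * (1 + 98 * ε) ≤ ε := by nlinarith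
    linarith
  -- near region
  have near : ∀ r : ℝ, 0 ≤ r → r ≤ 2 * V.s →
      ∫ t in Icc (c - r) (c + r), vf cd t / |V.q t| ≤ 800 * ε * V.s * k := by
    intro r hr0 hr
    have hA := half_int V.a (3 * V.s) (by positivity)
    have hBb := half_int V.b (3 * V.s) (by positivity)
    have hsqrt : Real.sqrt (3 * V.s) ≤ 2 * Real.sqrt V.s := by
      rw [show 2 * Real.sqrt V.s = Real.sqrt (4 * V.s) by
        rw [Real.sqrt_mul (by norm_num), show (4 : ℝ) = 2 ^ 2 by norm_num, Real.sqrt_sq (by norm_num)]]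
      exact Real.sqrt_le_sqrt (by linarith)
    have hsr0 : 0 < Real.sqrt V.s := Real.sqrt_pos.mpr hs0
    have hcont : ∀ t ∈ Icc (c - r) (c + r), vf cd t / |V.q t| ≤
        44 * ε * V.s * k / Real.sqrt V.s * (|t - V.a| ^ (-(1 / 2) : ℝ) + |t - V.b| ^ (-(1 / 2) : ℝ)) := by
      intro t ht
      have htr : |t - c| ≤ 2 * V.s := by
        rw [abs_le]
        constructor <;> linarith [ht.1, ht.2]
      by_cases hV : t ∈ Icc V.a V.b
      · have h1 : V.q t = 0 := by
          rcases hV.1.lt_or_eq with h | h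
          · rcases hV.2.lt_or_eq with h' | h'
            · exact qr_in ⟨h, h'⟩
            · rw [Gap.q, qr, h']
              simp
          · rw [Gap.q, qr, ← h]
            simp
        rw [h1, abs_zero, div_zero]
        positivity
      · have hLWt := hLW t (by linarith)
        have h1 := ((hq4.2.2.2 V t hLWt).2.2.1) hV
        have h2 := hq4.1 V (2 * V.s) t (by positivity) htr
        have h3 : Real.sqrt ((2 * V.s) ^ 2 + V.s ^ 2 / 4) ≤ 207 / 100 * V.s := by
          rw [Real.sqrt_le_left (by positivity)]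
          nlinarith [sq_nonneg V.s]
        have h4 : vf cd t ≤ 44 * ε * V.s * k := by
          have h5 : |Nf cd t - V.N| ≤ 7 * (207 / 100 * V.s) * k := by
            refine h2.trans ?_
            apply mul_le_mul_of_nonneg_right _ hkk0.le
            linarith
          calc vf cd t ≤ 3 * ε * |Nf cd t - V.N| := h1
            _ ≤ 3 * ε * (7 * (207 / 100 * V.s) * k) := mul_le_mul_of_nonneg_left h5 (by positivity)
            _ ≤ _ := by
              have : 0 ≤ ε * V.s * k := by positivity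
              nlinarith
        -- lower bound for q
        have h5 : ∃ u : ℝ, 0 < u ∧ Real.sqrt V.s * u ^ (1 / 2 : ℝ) ≤ |V.q t| ∧
            u ^ (-(1 / 2) : ℝ) ≤ |t - V.a| ^ (-(1 / 2) : ℝ) + |t - V.b| ^ (-(1 / 2) : ℝ) := by
          rw [mem_Icc, not_and_or, not_le, not_le] at hV
          rcases hV with h | h
          · refine ⟨|t - V.a|, abs_pos.mpr (by linarith), ?_, ?_⟩
            · rw [abs_q, ← Real.sqrt_eq_rpow, ← Real.sqrt_mul hs0.le]
              apply Real.sqrt_le_sqrt
              rw [abs_of_neg (by linarith)]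
              have : V.s ≤ V.b - t := by
                rw [Gap.s]
                linarith
              nlinarith
            · have := Real.rpow_nonneg (abs_nonneg (t - V.b)) (-(1 / 2) : ℝ)
              linarith
          · refine ⟨|t - V.b|, abs_pos.mpr (by linarith), ?_, ?_⟩
            · rw [abs_q, ← Real.sqrt_eq_rpow, ← Real.sqrt_mul hs0.le]
              apply Real.sqrt_le_sqrt
              rw [abs_of_pos (by linarith)]
              have : V.s ≤ t - V.a := by
                rw [Gap.s]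
                linarith
              nlinarith
            · have := Real.rpow_nonneg (abs_nonneg (t - V.a)) (-(1 / 2) : ℝ)
              linarith
        obtain ⟨u, hu, hu1, hu2⟩ := h5
        have hu3 : 0 < Real.sqrt V.s * u ^ (1 / 2 : ℝ) := by positivity
        calc vf cd t / |V.q t| ≤ 44 * ε * V.s * k / |V.q t| := div_le_div_of_nonneg_right h4 (abs_nonneg _)
          _ ≤ 44 * ε * V.s * k / (Real.sqrt V.s * u ^ (1 / 2 : ℝ)) :=
              div_le_div_of_nonneg_left (by positivity) hu3 hu1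
          _ = 44 * ε * V.s * k / Real.sqrt V.s * u ^ (-(1 / 2) : ℝ) := by
              rw [Real.rpow_neg hu.le]
              field_simp
          _ ≤ _ := mul_le_mul_of_nonneg_left hu2 (by positivity)
    have hsubA : Icc (c - r) (c + r) ⊆ Icc (V.a - 3 * V.s) (V.a + 3 * V.s) :=
      Icc_subset_Icc (by linarith) (by linarith)
    have hsubB : Icc (c - r) (c + r) ⊆ Icc (V.b - 3 * V.s) (V.b + 3 * V.s) :=
      Icc_subset_Icc (by linarith) (by linarith)
    have iA := hA.1.mono_set hsubA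
    have iB := hBb.1.mono_set hsubB
    have h1 : ∫ t in Icc (c - r) (c + r), vf cd t / |V.q t| ≤ ∫ t in Icc (c - r) (c + r),
        44 * ε * V.s * k / Real.sqrt V.s * (|t - V.a| ^ (-(1 / 2) : ℝ) + |t - V.b| ^ (-(1 / 2) : ℝ)) := by
      apply integral_mono_of_nonneg (Eventually.of_forall hf0)
      · exact (iA.add iB).const_mul _
      · exact (ae_restrict_mem measurableSet_Icc).mono hcont
    rw [integral_const_mul, integral_add iA iB] at h1
    have h2 : ∫ t in Icc (c - r) (c + r), |t - V.a| ^ (-(1 / 2) : ℝ) ≤ 8 * Real.sqrt V.s := by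
      refine (setIntegral_mono_set hA.1 (Eventually.of_forall (fun t => Real.rpow_nonneg (abs_nonneg _) _))
        (LE.le.eventuallyLE hsubA)).trans ?_
      linarith [hA.2]
    have h3 : ∫ t in Icc (c - r) (c + r), |t - V.b| ^ (-(1 / 2) : ℝ) ≤ 8 * Real.sqrt V.s := by
      refine (setIntegral_mono_set hBb.1 (Eventually.of_forall (fun t => Real.rpow_nonneg (abs_nonneg _) _))
        (LE.le.eventuallyLE hsubB)).trans ?_
      linarith [hBb.2]
    calc ∫ t in Icc (c - r) (c + r), vf cd t / |V.q t| ≤ 44 * ε * V.s * k / Real.sqrt V.s *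
          (8 * Real.sqrt V.s + 8 * Real.sqrt V.s) := by
          refine h1.trans ?_
          apply mul_le_mul_of_nonneg_left _ (by positivity)
          exact add_le_add h2 h3
      _ = 704 * ε * V.s * k := by
          field_simp
          ring
      _ ≤ _ := by
          have : 0 ≤ ε * V.s * k := by positivity
          nlinarith
  -- shells
  have shell : ∀ δ : ℝ, V.s ≤ δ → 2 * δ ≤ R →
      ∫ t in Icc (c - 2 * δ) (c + 2 * δ) \ Icc (c - δ) (c + δ), vf cd t / |V.q t| ≤ 60000 * KB * ε ^ 2 * k * δ := by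
    intro δ hδ1 hδ2
    have hδ0 : 0 < δ := by linarith
    set Y := Yf cd c (2 * δ) with hY
    have hY0 : 0 < Y := (p13 c (2 * δ) (2 * δ) (by linarith) le_rfl).1
    have hYB : k * (2 * δ) ≤ KB * Y := hB ε Hm Hp C cd hPar hε V hmu (2 * δ) (by linarith) hδ2
    have hLab : ∀ t : ℝ, |t - c| ≤ 2 * δ → |Nf cd t - V.N| ≤ 15 * δ * k := by
      intro t ht
      have h2 := hq4.1 V (2 * δ) t (by positivity) ht
      have h3 : Real.sqrt ((2 * δ) ^ 2 + V.s ^ 2 / 4) ≤ 207 / 100 * δ := by
        rw [Real.sqrt_le_left (by positivity)]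
        nlinarith [sq_nonneg V.s]
      refine h2.trans ?_
      apply mul_le_mul_of_nonneg_right _ hkk0.le
      linarith
    set M := 1 / (150 * δ * k) with hM
    have hM0 : 0 < M := by positivity
    have hM1 : 1 ≤ M := by
      rw [hM, one_le_div (by positivity)]
      have h1 : δ ≤ R / 2 := by linarith
      have h2 : δ * k ≤ R / 2 * k := mul_le_mul_of_nonneg_right h1 hkk0.le
      have h3 : R / 2 * k = k * V.s / (8 * ε) := by
        rw [hR]
        field_simp
        ring
      have h4 : k * V.s / (8 * ε) ≤ 1 / 8000 := by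
        rw [div_le_iff₀ (by positivity)]
        linarith
      linarith
    have hmass := (hQ2 ε Hm Hp C cd hPar (by linarith) c (2 * δ) M (Icc V.a V.b) (by linarith) hM1 measurableSet_Icc
      (fun t ht => by
        have htr : |t - c| ≤ 2 * δ := by
          rw [abs_le]
          constructor <;> linarith [ht.1, ht.2]
        have := hq4.2.2.2 V t (hLW t (by linarith))
        exact ⟨this.1, this.2.1⟩)
      (fun W hW => by
        by_cases hne : W = V
        · left
          rw [hne]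
        · right
          set t := max W.a (c - 2 * δ) with ht
          have ht1 : t ∈ Icc W.a W.b := ⟨le_max_left _ _, max_le W.lt.le hW.2⟩
          have ht2 : t ∈ Icc (c - 2 * δ) (c + 2 * δ) := ⟨le_max_right _ _, max_le hW.1 (by linarith)⟩
          have htr : |t - c| ≤ 2 * δ := by
            rw [abs_le]
            constructor <;> linarith [ht2.1, ht2.2]
          have h1 := (hq4.2.2.2 V t (hLW t (by linarith))).2.2.2 W hne ht1
          have h2 : Nf cd t = W.N := W.lab t ht1
          have h3 := hLab t htr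
          rw [h2] at h3
          rw [hM, div_le_iff₀ (by positivity)]
          have h5 : |W.mu| * |W.N - V.N| ≤ |W.mu| * (15 * δ * k) := mul_le_mul_of_nonneg_left h3 (abs_nonneg _)
          linarith)
      (by
        have h1 : M * (k * (2 * δ)) ≤ M * (KB * Y) := mul_le_mul_of_nonneg_left hYB hM0.le
        have h2 : M * (k * (2 * δ)) = 1 / 75 := by
          rw [hM]
          field_simp
          ring
        rw [h2] at h1
        have h3 : ε * (250 * KB) ≤ 1 := by
          rwa [le_div_iff₀ (by positivity)] at hε2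
        have h4 : KB * (31 / 10 * ε) ≤ KB * (M * Y) := by linarith
        exact le_of_mul_le_mul_left h4 (by linarith))).2
    have eY : Yf cd c (2 * δ) = Y := rfl
    rw [eY] at hmass
    have hmass2 : ∫ t in Icc (c - 2 * δ) (c + 2 * δ) \ Icc V.a V.b, vf cd t ≤ 46800 * KB * ε ^ 2 * δ ^ 2 * k := by
      refine hmass.trans ?_
      have h1 : 2 * δ / (Y * M ^ 2) ≤ 22500 * KB * δ ^ 2 * k := by
        rw [div_le_iff₀ (by positivity)]
        have h2 : 22500 * KB * δ ^ 2 * k * (Y * M ^ 2) = (KB * Y) * (1 / k) := by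
          rw [hM]
          field_simp
          ring
        rw [h2]
        calc 2 * δ = k * (2 * δ) * (1 / k) := by field_simp
          _ ≤ _ := mul_le_mul_of_nonneg_right hYB (by positivity)
      have h2 : 81 * (2 * δ) / M = 24300 * δ ^ 2 * k := by
        rw [hM]
        field_simp
        ring
      rw [h2]
      have h3 : 24300 * δ ^ 2 * k ≤ 24300 * KB * δ ^ 2 * k := by
        have : 0 ≤ δ ^ 2 * k := by positivity
        nlinarith
      calc ε ^ 2 * (2 * δ / (Y * M ^ 2) + 24300 * δ ^ 2 * k) ≤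
            ε ^ 2 * (22500 * KB * δ ^ 2 * k + 24300 * KB * δ ^ 2 * k) :=
            mul_le_mul_of_nonneg_left (add_le_add h1 h3) (by positivity)
        _ = _ := by ring
    have hsub : Icc (c - 2 * δ) (c + 2 * δ) \ Icc (c - δ) (c + δ) ⊆ Icc (c - 2 * δ) (c + 2 * δ) \ Icc V.a V.b := by
      intro t ht
      refine ⟨ht.1, fun h => ht.2 ⟨?_, ?_⟩⟩
      · linarith [h.1]
      · linarith [h.2]
    have hmass3 : ∫ t in Icc (c - 2 * δ) (c + 2 * δ) \ Icc (c - δ) (c + δ), vf cd t ≤
        46800 * KB * ε ^ 2 * δ ^ 2 * k := by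
      refine (setIntegral_mono_set ((vf_intOn cd _ _).mono_set sdiff_subset)
        (Eventually.of_forall (vf_nonneg cd)) (LE.le.eventuallyLE hsub)).trans hmass2
    have h1 : ∫ t in Icc (c - 2 * δ) (c + 2 * δ) \ Icc (c - δ) (c + δ), vf cd t / |V.q t| ≤
        ∫ t in Icc (c - 2 * δ) (c + 2 * δ) \ Icc (c - δ) (c + δ), (1 / (8 / 10 * δ)) * vf cd t := by
      apply integral_mono_of_nonneg (Eventually.of_forall hf0)
      · exact ((vf_intOn cd _ _).mono_set sdiff_subset).const_mul _
      · refine (ae_restrict_mem (measurableSet_Icc.diff measurableSet_Icc)).mono (fun t ht => ?_)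
        have h2 : δ < |t - c| := by
          by_contra hcon
          rw [not_lt, abs_le] at hcon
          exact ht.2 ⟨by linarith [hcon.1], by linarith [hcon.2]⟩
        have h3 : 8 / 10 * δ ≤ |V.q t| := by
          rw [abs_q]
          apply Real.le_sqrt_of_sq_le
          have h4 : (t - V.a) * (t - V.b) = |t - c| ^ 2 - V.s ^ 2 / 4 := by
            rw [hca, hcb, sq_abs]
            ring
          rw [h4]
          nlinarith
        show vf cd t / |V.q t| ≤ (1 / (8 / 10 * δ)) * vf cd t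
        rw [div_eq_mul_one_div, mul_comm]
        exact mul_le_mul_of_nonneg_right (one_div_le_one_div_of_le (by positivity) h3) (vf_nonneg cd t)
    rw [integral_const_mul] at h1
    refine h1.trans ?_
    calc 1 / (8 / 10 * δ) * ∫ t in Icc (c - 2 * δ) (c + 2 * δ) \ Icc (c - δ) (c + δ), vf cd t ≤
          1 / (8 / 10 * δ) * (46800 * KB * ε ^ 2 * δ ^ 2 * k) := mul_le_mul_of_nonneg_left hmass3 (by positivity)
      _ = 58500 * KB * ε ^ 2 * k * δ := by
          field_simp
          ring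
      _ ≤ _ := by
          have : 0 ≤ KB * ε ^ 2 * k * δ := by positivity
          nlinarith
  -- induction
  have ind : ∀ n : ℕ, ∀ r : ℝ, 0 ≤ r → r ≤ R → r ≤ 2 ^ n * (2 * V.s) →
      ∫ t in Icc (c - r) (c + r), vf cd t / |V.q t| ≤ 800 * ε * V.s * k + 60000 * KB * ε ^ 2 * k * r := by
    intro n
    induction n with
    | zero =>
      intro r hr0 hrR hr
      have h1 := near r hr0 (by simpa using hr)
      have h2 : 0 ≤ 60000 * KB * ε ^ 2 * k * r := by positivity
      linarith
    | succ n ih =>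
      intro r hr0 hrR hr
      rcases le_or_gt r (2 * V.s) with h | h
      · have h1 := near r hr0 h
        have h2 : 0 ≤ 60000 * KB * ε ^ 2 * k * r := by positivity
        linarith
      · set δ := r / 2 with hδ
        have hr2 : r = 2 * δ := by rw [hδ]; ring
        have h1 := ih δ (by linarith) (by linarith) (by rw [pow_succ] at hr; linarith)
        have h2 := shell δ (by linarith) (by linarith)
        rw [← hr2] at h2
        rw [shell_split (fun t => vf cd t / |V.q t|) c r δ (by linarith) hf0 (vq_intOn hP3 cd V r hr0)]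
        have h3 : 60000 * KB * ε ^ 2 * k * r = 60000 * KB * ε ^ 2 * k * δ + 60000 * KB * ε ^ 2 * k * δ := by
          rw [hr2]
          ring
        linarith
  obtain ⟨n, hn⟩ := pow_unbounded_of_one_lt (R / (2 * V.s)) (one_lt_two : (1 : ℝ) < 2)
  have hn' : R ≤ 2 ^ n * (2 * V.s) := by
    rw [div_lt_iff₀ (by positivity)] at hn
    exact hn.le
  refine (ind n R hR0.le le_rfl hn').trans ?_
  have h1 : 60000 * KB * ε ^ 2 * k * R = 15000 * KB * ε * V.s * k := by
    rw [hR]
    field_simp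
    ring
  rw [h1]
  have h2 : 0 ≤ ε * V.s * k := by positivity
  have h3 : 800 * ε * V.s * k ≤ 800 * KB * ε * V.s * k := by nlinarith
  have h4 : 0 ≤ KB * ε * V.s * k := by positivity
  nlinarith

theorem Q6 (hP1 : ST_P1) (hP2 : ST_P2) (hP3 : ST_P3) (hQ2 : ST_Q2) (hQ3 : ST_Q3) (hQ4 : ST_Q4) : ST_Q6 := by
  obtain ⟨KB, hKB, hB⟩ := Q6B hP1 hP2 hP3 hQ3 hQ4
  refine ⟨50000 * KB, min (1 / 10 ^ 5) (1 / (250 * KB)), by linarith, by positivity, ?_⟩
  intro ε Hm Hp C cd hPar hε V hmu
  have h1 : ε ≤ 1 / 10 ^ 5 := hε.trans (min_le_left _ _)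
  have h2 : ε ≤ 1 / (250 * KB) := hε.trans (min_le_right _ _)
  refine ⟨Q6A hP1 hP2 hP3 hQ2 hQ4 KB hKB hB ε Hm Hp C cd hPar h1 h2 V hmu, fun r hr hrR => ?_⟩
  have h3 := hB ε Hm Hp C cd hPar h1 V hmu r hr hrR
  have h4 : 0 < Yf cd V.c r := ((hP1 Hm Hp C cd).2.2.1 V.c r r hr le_rfl).1
  have h5 : 0 < KB * Yf cd V.c r := by positivity
  linarith

end

end Pool.Agent.Helper39.CV
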